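import Pool.Agent.T9h57.NF.CoreNg

/-!
# `CoreNOf`
-/

set_option autoImplicit false

namespace Pool.Agent.T9h57.NF

open Finset NumberField Pool.Agent.T9h11.NF
open Pool.Agent.T9h57.QD (ind ind_true ind_false ind_nonneg ind_le_one ind_mono ind_congr ind_and)

section

variable {K : Type} [Field K] [NumberField K]

theorem near_size {b θ : ℝ} {z z₀ : Sp K} (hb : 1 ≤ b) (h0 : ∀ v, Rb b ‖z₀ v‖)
    (hθ : θ ≤ b⁻¹ / 2) (h : ‖z - z₀‖ ≤ θ) (v : InfinitePlace K) : Rb (2 * b) ‖z v‖ := by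
  have h1 : ‖z v - z₀ v‖ ≤ θ := (norm_le_pi_norm (z - z₀) v).trans h
  have h2 := abs_norm_sub_norm_le (z v) (z₀ v)
  have h3 := abs_le.1 (h2.trans h1)
  have h4 := h0 v
  have hbi : b⁻¹ ≤ 1 := inv_le_one_of_one_le₀ hb
  constructor
  · have h5 : (2 * b)⁻¹ = b⁻¹ / 2 := by rw [mul_inv]; ring
    rw [h5]
    linarith [h4.1, h3.1]
  · linarith [h4.2, h3.2]

theorem coe_ne {x : 𝓞 K} (h : x ≠ 0) : (x : K) ≠ 0 :=
  (map_ne_zero_iff (algebraMap (𝓞 K) K) (FaithfulSMul.algebraMap_injective (𝓞 K) K)).2 h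

theorem SmallDvd.mono {w w' : ℕ} {M : Ideal (𝓞 K)} (h : w ≤ w') (hM : SmallDvd w' M) :
    SmallDvd w M := fun p hp h0 hn => hM p hp h0 (hn.trans h)

end

set_option maxHeartbeats 4000000 in
theorem coreNOf (K : Type) [Field K] [NumberField K] : CoreNOf K := by
  intro _ hPhi hDivX hCSum hLL hAI hCirc hCoreS a a' ρ₁ ρ₂ ρ₃ r ε z₀ ht₁ ht₂ hρ₃ hππ hr hε hz0 hz1
  classical
  have hρ₁ := ht₁.1
  have hρ₂ := ht₂.1
  obtain ⟨b, hb, hs₁, hs₂, hs₃, hs₄, hs₅⟩ : ∃ b : ℝ, 1 ≤ b ∧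
      (∀ z, ρ₁ z ≠ 0 → ∀ v, Rb b ‖z v‖) ∧ (∀ z, ρ₂ z ≠ 0 → ∀ v, Rb b ‖z v‖) ∧
      (∀ z, ρ₃ z ≠ 0 → ∀ v, Rb b ‖z v‖) ∧ (∀ v, Rb b ‖z₀ v‖) ∧ ∀ v, Rb b ‖(1 - z₀) v‖ := by
    obtain ⟨b₁, hb₁, hb₁'⟩ := exists_b hρ₁
    obtain ⟨b₂, hb₂, hb₂'⟩ := exists_b hρ₂
    obtain ⟨b₃, hb₃, hb₃'⟩ := exists_b hρ₃
    obtain ⟨b₄, hb₄, hb₄'⟩ := exists_b' hz0.1
    obtain ⟨b₅, hb₅, hb₅'⟩ := exists_b' hz1.1
    refine ⟨b₁ + b₂ + b₃ + b₄ + b₅, by linarith, fun z hz v => (hb₁' z hz v).mono hb₁ (by linarith),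
      fun z hz v => (hb₂' z hz v).mono hb₂ (by linarith),
      fun z hz v => (hb₃' z hz v).mono hb₃ (by linarith),
      fun v => (hb₄' v).mono hb₄ (by linarith), fun v => (hb₅' v).mono hb₅ (by linarith)⟩
  have hb0 : 0 < b := by linarith
  obtain ⟨L, hL0, hL⟩ : ∃ L : ℝ, 0 ≤ L ∧ ∀ z z', |ρ₂ z - ρ₂ z'| ≤ L * ‖z - z'‖ := by
    obtain ⟨L₀, hL₀⟩ := hρ₂.2.1
    exact ⟨max L₀ 0, le_max_right _ _, fun z z' => (hL₀ z z').trans
      (mul_le_mul_of_nonneg_right (le_max_left _ _) (norm_nonneg _))⟩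
  set n : ℕ := (2 * r + 1) ^ 2 - 2 * r with hn
  have hnN : 2 * r + n = (2 * r + 1) ^ 2 := by
    have : 2 * r ≤ (2 * r + 1) ^ 2 := by nlinarith
    omega
  have hkn : (2 * r + 1) * (2 * r) < n := by nlinarith
  have hn1 : 1 ≤ n := by omega
  have hkc : (2 * r + 1) * (2 * r) < (2 * r + 1) ^ 2 := by nlinarith
  have hbp : ∀ m : ℕ, 1 ≤ b ^ m := fun m => one_le_pow₀ hb
  have hbr := hbp (2 * r)
  have hbn := hbp n
  set C' : ℝ := b * b * b ^ (2 * r) * b with hC'd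
  set C'' : ℝ := 2 * b * b * b ^ (2 * r) * b ^ n with hC''d
  have hbb : 1 ≤ b * b := by nlinarith
  have hC' : 1 ≤ C' := by
    have h1 : 1 ≤ b * b * b ^ (2 * r) := by nlinarith
    nlinarith
  have hC'' : 1 ≤ C'' := by
    have h1 : 1 ≤ 2 * b * b := by nlinarith
    have h2 : 1 ≤ 2 * b * b * b ^ (2 * r) := by nlinarith
    nlinarith
  obtain ⟨B1, hB1⟩ := hLL a' C'⁻¹ C' (inv_pos.2 (by linarith))
  obtain ⟨B2, hB2⟩ := hLL a C''⁻¹ C'' (inv_pos.2 (by linarith))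
  set Kζ : ℝ := C' * b * b ^ (2 * r) with hKζ
  have hKζ0 : 0 ≤ Kζ := by positivity
  set ϑ : ℝ := min 1 (ε / (4 * (B1 + 1))) with hϑ
  have hϑ0 : 0 < ϑ := lt_min one_pos (by positivity)
  have hϑ1 : ϑ ≤ 1 := min_le_left _ _
  have hϑB : ϑ * B1 ≤ ε / 4 := by
    have h1 : ϑ ≤ ε / (4 * (B1 + 1)) := min_le_right _ _
    have h2 : (0 : ℝ) ≤ B1 := by positivity
    calc ϑ * B1 ≤ ε / (4 * (B1 + 1)) * B1 := mul_le_mul_of_nonneg_right h1 h2
      _ ≤ ε / (4 * (B1 + 1)) * (B1 + 1) := mul_le_mul_of_nonneg_left (by linarith) (by positivity)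
      _ = ε / 4 := by field_simp
  set θ : ℝ := min (b⁻¹ / 2) (ϑ / (L * Kζ + 1)) with hθ
  have hLK : 0 < L * Kζ + 1 := by positivity
  have hθ0 : 0 < θ := lt_min (by positivity) (by positivity)
  have hθ1 : θ ≤ b⁻¹ / 2 := min_le_left _ _
  have hθ2 : L * Kζ * θ ≤ ϑ := by
    have h1 : θ ≤ ϑ / (L * Kζ + 1) := min_le_right _ _
    have h2 : 0 ≤ L * Kζ := by positivity
    calc L * Kζ * θ ≤ (L * Kζ + 1) * (ϑ / (L * Kζ + 1)) :=
          mul_le_mul (by linarith) h1 hθ0.le hLK.le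
      _ = ϑ := by field_simp
  refine ⟨θ, hθ0, fun Ψ lam hΨ hΨθ hlam hcl => ?_⟩
  obtain ⟨P, hP⟩ := exists_pr hlam
  obtain ⟨C₁, hC₁, hcirc⟩ := hCirc a n ρ₁ Ψ hn1 ht₁ hΨ
  have hγ := gam_pos hlam hP hPhi
  set γ := gam lam P with hγd
  have hphi' : ∀ S ∈ P.powerset, 0 < phi (qS lam S) := fun S hS =>
    hPhi.2.2 _ (qS_ne hlam hP (mem_powerset.1 hS))
  have hwt0 : ∀ S ∈ P.powerset, 0 ≤ nm (Ideal.span {lam}) / phi (qS lam S) := fun S hS =>
    div_nonneg (nm_pos (span_ne hlam)).le (hphi' S hS).le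
  set GP : ℝ := ∑ S ∈ P.powerset, nm (Ideal.span {lam}) / phi (qS lam S) with hGPd
  have hGP : 0 ≤ GP := sum_nonneg hwt0
  set K₁ : ℝ := 2 / (γ * C₁) with hK₁d
  have hK₁ : 0 < K₁ := by positivity
  set ε' : ℝ := ε / 4 / (K₁ * ((B1 * B2 * B1) * GP) + 1) with hε'd
  have hden : 0 < K₁ * ((B1 * B2 * B1) * GP) + 1 := by positivity
  have hε' : 0 < ε' := by positivity
  have hcs := fun (S : Finset (Ideal (𝓞 K))) (hS : S ∈ P.powerset) =>
    hCoreS (2 * r) n (2 * r) (2 * r + 1) ((2 * r + 1) ^ 2) (qS lam S) ρ₁ ρ₂ ρ₃ Ψ ε' hkn hkc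
      (by omega) (qS_ne hlam hP (mem_powerset.1 hS)) hρ₁ hρ₂ hρ₃ hΨ hε'
  choose! w hw using hcs
  refine ⟨P.powerset.sup w, fun A hA hcA hsm => ?_⟩
  have hπ0 : a.pi ≠ 0 := a.ne a.i₀
  have hπ0' : a'.pi ≠ 0 := a'.ne a'.i₀
  have hMe : A * (lam * (a.pi * a'.pi)) ≠ 0 :=
    mul_ne_zero hA (mul_ne_zero hlam (mul_ne_zero hπ0 hπ0'))
  set M : Ideal (𝓞 K) := Ideal.span {A * (lam * (a.pi * a'.pi))} with hMd
  have hM : M ≠ ⊥ := span_ne hMe
  have hAK : (A : K) ≠ 0 := by simpa using hA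
  have hlK : (lam : K) ≠ 0 := by simpa using hlam
  set nA : ℝ := nrm (E (A : K)) with hnA
  have hnA1 : 1 ≤ nA := one_le_nrm hA
  have hH₀1 : (1 : ℝ) ≤ 2 * C' * C'' * (1 + nA) := by
    have h1 : 1 ≤ C' * C'' := by nlinarith
    nlinarith
  refine ⟨2 * C' * C'' * (1 + nA), hH₀1, fun H hH => ?_⟩
  have hH1 : 1 ≤ H := hH₀1.trans hH
  have hH0 : 0 < H := by linarith
  set h' : ℝ := H ^ (2 * r + 1) with hh'
  have hh'H : H ≤ h' := by
    rw [hh']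
    calc H = H ^ 1 := (pow_one H).symm
      _ ≤ H ^ (2 * r + 1) := pow_le_pow_right₀ hH1 (by omega)
  have hh'0 : 0 < h' := by positivity
  set z' : Sp K := (h'⁻¹ : ℝ) • (E (lam : K))⁻¹ with hz'd
  have hz' : ∀ v, z' v ≠ 0 := by
    intro v
    rw [hz'd, Pi.smul_apply, Pi.inv_apply]
    exact smul_ne_zero (inv_ne_zero hh'0.ne') (inv_ne_zero (E_ne hlK v))
  have hel : ∀ k, a.el k ≠ 0 := fun k => ((hAI a).2.2 k).2.1
  have hel' : ∀ k, a'.el k ≠ 0 := fun k => ((hAI a').2.2 k).2.1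
  have hnz' : ∀ (k : InfinitePlace K → ℤ) (v : InfinitePlace K), ‖(E (a'.el k) * z') v‖ =
      v (a'.el k) / (v (lam : K) * h') := by
    intro k v
    have hi : ‖(E (lam : K) v)⁻¹‖ = (v (lam : K))⁻¹ := by rw [norm_inv, norm_E]
    rw [Pi.mul_apply, norm_mul, norm_E, hz'd, Pi.smul_apply, Pi.inv_apply, norm_smul, hi,
      Real.norm_eq_abs, abs_of_pos (inv_pos.2 hh'0)]
    field_simp
  set Λ' : Finset (InfinitePlace K → ℤ) := (hB1 z' hz').1.toFinset with hΛ'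
  have hΛ'mem : ∀ k, k ∈ Λ' ↔ ∀ v : InfinitePlace K, Rb C' (v (a'.el k) / (v (lam : K) * h')) := by
    intro k
    rw [hΛ', Set.Finite.mem_toFinset, Set.mem_setOf_eq]
    simp only [hnz']
    rfl
  have hz2 : ∀ (k' : InfinitePlace K → ℤ) (v : InfinitePlace K),
      (E (A : K) * (E (a'.el k'))⁻¹) v ≠ 0 := by
    intro k' v
    rw [Pi.mul_apply, Pi.inv_apply]
    exact mul_ne_zero (E_ne hAK v) (inv_ne_zero (E_ne (hel' k') v))
  have hnz2 : ∀ (k k' : InfinitePlace K → ℤ) (v : InfinitePlace K),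
      ‖(E (a.el k) * (E (A : K) * (E (a'.el k'))⁻¹)) v‖ =
      v (a.el k) * (v (A : K) * (v (a'.el k'))⁻¹) := by
    intro k k' v
    rw [Pi.mul_apply, Pi.mul_apply, Pi.inv_apply, norm_mul, norm_mul, norm_inv, norm_E, norm_E,
      norm_E]
  set Λ : Finset (InfinitePlace K → ℤ) :=
    Λ'.biUnion (fun k' => (hB2 _ (hz2 k')).1.toFinset) with hΛ
  have hΛmem : ∀ k, k ∈ Λ ↔ ∃ k' ∈ Λ', ∀ v : InfinitePlace K,
      Rb C'' (v (a.el k) * (v (A : K) * (v (a'.el k'))⁻¹)) := by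
    intro k
    rw [hΛ, mem_biUnion]
    refine exists_congr fun k' => and_congr_right fun _ => ?_
    rw [Set.Finite.mem_toFinset, Set.mem_setOf_eq]
    simp only [hnz2]
    rfl
  have hcard' : Λ'.card ≤ B1 := (hB1 z' hz').2 Λ' fun k hk v => by
    have := (hΛ'mem k).1 hk v
    rw [← hnz'] at this
    exact this
  have hcard : Λ.card ≤ B1 * B2 := by
    refine (card_biUnion_le_card_mul _ _ B2 fun k' _ => (hB2 _ (hz2 k')).2 _ fun k hk v => ?_).trans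
      (Nat.mul_le_mul_right _ hcard')
    rw [Set.Finite.mem_toFinset] at hk
    exact hk v
  have hvl : ∀ v : InfinitePlace K, 0 < v (lam : K) := fun v => InfinitePlace.pos_iff.2 hlK
  have hvA : ∀ v : InfinitePlace K, 0 < v (A : K) := fun v => InfinitePlace.pos_iff.2 hAK
  have hvel : ∀ k (v : InfinitePlace K), 0 < v (a.el k) := fun k v => InfinitePlace.pos_iff.2 (hel k)
  have hvel' : ∀ k (v : InfinitePlace K), 0 < v (a'.el k) :=
    fun k v => InfinitePlace.pos_iff.2 (hel' k)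
  have hd1 : 1 ≤ Module.finrank ℚ K := Module.finrank_pos
  -- norms of the group elements
  have hnorm' : ∀ k ∈ Λ', (2 * C'' * (1 + nA)) ^ Module.finrank ℚ K ≤ nrm (E (a'.el k)) := by
    intro k hk
    have h1 : ∀ v, (2 * C'' * (1 + nA)) ≤ ‖(E (a'.el k) * (E (lam : K))⁻¹) v‖ := by
      intro v
      have h2 := ((hΛ'mem k).1 hk v).1
      have h3 : ‖(E (a'.el k) * (E (lam : K))⁻¹) v‖ = v (a'.el k) / (v (lam : K) * h') * h' := by
        rw [Pi.mul_apply, Pi.inv_apply, norm_mul, norm_inv, norm_E, norm_E]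
        have := (hvl v).ne'
        field_simp
      rw [h3]
      calc 2 * C'' * (1 + nA) = C'⁻¹ * (2 * C' * C'' * (1 + nA)) := by
            have : C' ≠ 0 := by linarith
            field_simp
        _ ≤ C'⁻¹ * h' := mul_le_mul_of_nonneg_left (hH.trans hh'H) (inv_nonneg.2 (by linarith))
        _ ≤ _ := mul_le_mul_of_nonneg_right h2 hh'0.le
    have h4 := nrm_ge (by positivity) h1
    have h5 : nrm (E (a'.el k) * (E (lam : K))⁻¹) * nrm (E (lam : K)) = nrm (E (a'.el k)) := by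
      rw [← nrm_mul]
      congr 1
      funext v
      simp only [Pi.mul_apply, Pi.inv_apply]
      rw [mul_assoc, inv_mul_cancel₀ (E_ne hlK v), mul_one]
    rw [← h5]
    have h6 := one_le_nrm hlam
    have h7 : 0 ≤ nrm (E (a'.el k) * (E (lam : K))⁻¹) := le_trans (by positivity) h4
    nlinarith
  have hΛ'1 : ∀ k ∈ Λ', 1 ≤ k a'.i₀ := by
    intro k hk
    refine exp_pos hAI a' k (lt_of_lt_of_le ?_ (hnorm' k hk))
    exact one_lt_pow₀ (by nlinarith) (by omega)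
  have hΛ1 : ∀ k ∈ Λ, 1 ≤ k a.i₀ := by
    intro k hk
    obtain ⟨k', hk', h1⟩ := (hΛmem k).1 hk
    have h2 : ∀ v, C''⁻¹ ≤ ‖(E (a.el k) * (E (A : K) * (E (a'.el k'))⁻¹)) v‖ := by
      intro v
      rw [hnz2]
      exact (h1 v).1
    have h3 := nrm_ge (by positivity) h2
    have h4 : nrm (E (a.el k) * (E (A : K) * (E (a'.el k'))⁻¹)) * nrm (E (a'.el k')) =
        nrm (E (a.el k)) * nA := by
      rw [hnA, ← nrm_mul, ← nrm_mul]
      congr 1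
      funext v
      simp only [Pi.mul_apply, Pi.inv_apply]
      have := E_ne (hel' k') v
      field_simp
    have h5 := hnorm' k' hk'
    refine exp_pos hAI a k ?_
    have h6 : C''⁻¹ ^ Module.finrank ℚ K * (2 * C'' * (1 + nA)) ^ Module.finrank ℚ K ≤
        nrm (E (a.el k)) * nA := by
      rw [← h4]
      exact mul_le_mul h3 h5 (by positivity) (le_trans (by positivity) h3)
    rw [← mul_pow] at h6
    have h7 : C''⁻¹ * (2 * C'' * (1 + nA)) = 2 * (1 + nA) := by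
      have : C'' ≠ 0 := by linarith
      field_simp
    rw [h7] at h6
    have h8 : 2 * (1 + nA) ≤ (2 * (1 + nA)) ^ Module.finrank ℚ K := by
      calc 2 * (1 + nA) = (2 * (1 + nA)) ^ 1 := (pow_one _).symm
        _ ≤ _ := pow_le_pow_right₀ (by linarith) hd1
    have h9 : nA < nrm (E (a.el k)) * nA := by linarith
    by_contra h10
    push Not at h10
    nlinarith
  -- constants
  obtain ⟨Cc, Dc, hCc, hDc, hcirc'⟩ := hcirc M hM
  obtain ⟨Cx, Dx, hCx, hDx, hdx⟩ := hDivX ρ₁ M hρ₁ hM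
  obtain ⟨Cy, Dy, hCy, hDy, hdy⟩ := hDivX ρ₂ M hρ₂ hM
  obtain ⟨Cz, Dz, hCz, hDz, hdz⟩ := hCSum ρ₃ M hρ₃ hM
  obtain ⟨gk, hgk⟩ := exists_gk hAI a
  obtain ⟨gk', hgk'⟩ := exists_gk hAI a'
  have hMl : M ≤ Ideal.span {lam} := by
    rw [hMd, Ideal.span_singleton_le_span_singleton]
    exact ⟨A * (a.pi * a'.pi), by ring⟩
  have hcA' := (cop_span_iff _ _).1 hcA
  have hcl' := (cop_span_iff _ _).1 hcl
  have hcs2 : ∀ k ∈ Λ, ∀ k' ∈ Λ', ∀ S ∈ P.powerset, ∃ D₀ : ℝ, 1 ≤ D₀ ∧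
    ∀ D : ℝ, D₀ ≤ D → ∀ X Y C : Finset (𝓞 K), IsSlot ρ₁ M D X →
      IsSlot ρ₂ M (H * D ^ (2 * r + 1)) Y → IsSlot ρ₃ M (D ^ (2 * r + 1) ^ 2) C →
    exw (2 * r) X (pr (wl ρ₁ D) X) (fun u => exw (2 * r) Y (pr (wl ρ₂ (H * D ^ (2 * r + 1))) Y)
      (fun t => ∑ c ∈ C, pr (wu ρ₃ (D ^ (2 * r + 1) ^ 2)) C c *
        erN Ψ n X (pr (wl ρ₁ D) X) (A * gk k) (∏ i, u i) (∏ i, t i) (gk' k') c (qS lam S))) ≤
      ε' := by
    intro k hk k' hk' S hS
    have hg := hgk k (hΛ1 k hk)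
    have hg' := hgk' k' (hΛ'1 k' hk')
    refine hw S hS M H (A * gk k) (gk' k') hM (SmallDvd.mono (Finset.le_sup hS) hsm)
      (PD_qS hlam hP (mem_powerset.1 hS) hMl) hH1 (mul_ne_zero hA hg.2.1) hg'.2.1 ?_ ?_
    · rw [cop_iff]
      intro p hp hq hmem
      have hl : lam ∈ p := by
        rcases (hp.mul_le).1 hq with h3 | h3
        · exact h3 (Ideal.mem_span_singleton_self _)
        · exact ((hP p).1 (prime_of_dvd_prod hlam hP (mem_powerset.1 hS) hp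
            (Ideal.dvd_iff_le.2 h3))).2
      rcases hp.mem_or_mem hmem with h1 | h1
      · rcases hp.mem_or_mem h1 with h2 | h2
        · exact hcA' p hp (p.mul_mem_right _ hl) h2
        · exact hcl' p hp (p.mul_mem_right _ ((hg.2.2 p hp).1 h2)) hl
      · exact hcl' p hp (p.mul_mem_left _ ((hg'.2.2 p hp).1 h1)) hl
    · intro p hp _ hd
      rw [Ideal.dvd_span_singleton] at hd ⊢
      rcases hp.mem_or_mem hd with h1 | h1
      · rcases hp.mem_or_mem h1 with h2 | h2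
        · exact p.mul_mem_right _ h2
        · exact p.mul_mem_left _ (p.mul_mem_left _ (p.mul_mem_right _ ((hg.2.2 p hp).1 h2)))
      · exact p.mul_mem_left _ (p.mul_mem_left _ (p.mul_mem_left _ ((hg'.2.2 p hp).1 h1)))
  choose! D1 hD1 using hcs2
  have hD1nn : 0 ≤ ∑ k ∈ Λ, ∑ k' ∈ Λ', ∑ S ∈ P.powerset, |D1 k k' S| := by positivity
  have hD1le : ∀ k ∈ Λ, ∀ k' ∈ Λ', ∀ S ∈ P.powerset, D1 k k' S ≤
      ∑ k ∈ Λ, ∑ k' ∈ Λ', ∑ S ∈ P.powerset, |D1 k k' S| := by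
    intro k hk k' hk' S hS
    calc D1 k k' S ≤ |D1 k k' S| := le_abs_self _
      _ ≤ ∑ S ∈ P.powerset, |D1 k k' S| :=
          single_le_sum (f := fun S => |D1 k k' S|) (fun _ _ => abs_nonneg _) hS
      _ ≤ ∑ k' ∈ Λ', ∑ S ∈ P.powerset, |D1 k k' S| :=
          single_le_sum (f := fun k' => ∑ S ∈ P.powerset, |D1 k k' S|)
            (fun _ _ => by positivity) hk'
      _ ≤ _ := single_le_sum (f := fun k => ∑ k' ∈ Λ', ∑ S ∈ P.powerset, |D1 k k' S|)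
            (fun _ _ => by positivity) hk
  set Dsum : ℝ := ∑ k ∈ Λ, ∑ k' ∈ Λ', ∑ S ∈ P.powerset, |D1 k k' S| with hDsum
  set Dε : ℝ := 8 * B1 * Cc / (C₁ * ε) with hDε
  have hDε0 : 0 ≤ Dε := by positivity
  refine ⟨Λ, Λ', 1 + Dc + Dx + Dy + Dz + Dε + Dsum, hΛ1, hΛ'1, by linarith,
    fun D hD X Y C hX hY hC => ?_⟩
  have hDge1 : 1 ≤ D := by linarith
  have hD0 : 0 < D := by linarith
  set s : ℕ := 2 * r + 1 with hsd
  set E₀ : ℝ := H * D ^ s with hE₀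
  set DN : ℝ := D ^ s ^ 2 with hDN
  have hE₀0 : 0 < E₀ := by positivity
  have hDN0 : 0 < DN := by positivity
  have hDE : D ≤ E₀ := by
    calc D = D ^ 1 := (pow_one D).symm
      _ ≤ D ^ s := pow_le_pow_right₀ hDge1 (by omega)
      _ ≤ H * D ^ s := le_mul_of_one_le_left (by positivity) hH1
  have hDDN : D ≤ DN := by
    calc D = D ^ 1 := (pow_one D).symm
      _ ≤ D ^ s ^ 2 := pow_le_pow_right₀ hDge1 (Nat.one_le_pow _ _ (by omega))
  have hZx : 0 < ∑ x ∈ X, wl ρ₁ D x :=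
    lt_of_lt_of_le (by positivity) (hdx D (by linarith) X hX).2.1
  have hZ : 0 < ∑ y ∈ Y, wl ρ₂ E₀ y :=
    lt_of_lt_of_le (by positivity) (hdy E₀ (by linarith) Y hY).2.1
  have hZc : 0 < ∑ c ∈ C, wu ρ₃ DN c :=
    lt_of_lt_of_le (by positivity) (hdz DN (by linarith) C hC).2.1
  refine ⟨(∑ y ∈ Y, wl ρ₂ E₀ y) / (γ * C₁), by positivity, ?_⟩
  set I : Finset ((InfinitePlace K → ℤ) × ((InfinitePlace K → ℤ) × Finset (Ideal (𝓞 K)))) :=
    Λ ×ˢ (Λ' ×ˢ P.powerset) with hI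
  have hsum : ∀ f : (InfinitePlace K → ℤ) → (InfinitePlace K → ℤ) → Finset (Ideal (𝓞 K)) → ℝ,
      ∑ i ∈ I, f i.1 i.2.1 i.2.2 = ∑ k ∈ Λ, ∑ k' ∈ Λ', ∑ S ∈ P.powerset, f k k' S := by
    intro f
    rw [hI, sum_product]
    refine sum_congr rfl fun k _ => ?_
    rw [sum_product]
  have hheq : E₀ ^ (2 * r) * E₀ = h' * DN := by
    rw [← pow_succ, hE₀, hh', hDN, mul_pow, ← pow_mul, ← hsd]
    congr 2
    rw [pow_two]
  have hδ : 0 ≤ Cc / D := by positivity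
  have key := av_le X Y C (pr (wl ρ₁ D) X) (pr (wl ρ₂ E₀) Y) (pr (wu ρ₃ DN) C)
    (fun x _ => pr_nonneg (wl_nonneg hρ₁) x) (fun x _ => pr_nonneg (wl_nonneg hρ₂) x)
    (fun x _ => pr_nonneg (wu_nonneg hρ₃) x) (sum_pr hZx) (sum_pr hZ) (sum_pr hZc)
    (fun (u : Fin (2 * r) → 𝓞 K) (t : Fin (2 * r) → 𝓞 K) c =>
      |exk n X (pr (wl ρ₁ D) X) (fun v => exk 1 Y (pr (wl ρ₂ E₀) Y) (fun y =>
        Wn a a' Λ Λ' Ψ A lam ((∑ y ∈ Y, wl ρ₂ E₀ y) / (γ * C₁)) ((∏ i, u i) * ∏ i, v i)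
          ((∏ i, t i) * ∏ i, y i) c)) - 1|) I
    (fun i => nm (Ideal.span {lam}) / phi (qS lam i.2.2))
    (fun i u t c => erN Ψ n X (pr (wl ρ₁ D) X) (A * gk i.1) (∏ j, u j) (∏ j, t j) (gk' i.2.1) c
      (qS lam i.2.2)) (2 * B1 * (Cc / D) / C₁ + ϑ * B1) K₁ ε' hK₁.le ?_ ?_ ?_
  · refine key.trans ?_
    have h1 : 2 * B1 * (Cc / D) / C₁ ≤ ε / 4 := by
      have h2 : Dε ≤ D := by linarith
      rw [hDε, div_le_iff₀ (by positivity)] at h2
      rw [div_le_iff₀ hC₁, mul_div_assoc', div_le_iff₀ hD0]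
      nlinarith
    have h2 : ∑ i ∈ I, nm (Ideal.span {lam}) / phi (qS lam i.2.2) ≤ (B1 * B2 * B1) * GP := by
      rw [hsum (fun _ _ S => nm (Ideal.span {lam}) / phi (qS lam S))]
      simp only [sum_const, nsmul_eq_mul]
      rw [← hGPd, ← mul_assoc]
      refine mul_le_mul_of_nonneg_right ?_ hGP
      have h3 : (Λ.card : ℝ) ≤ B1 * B2 := by exact_mod_cast hcard
      have h4 : (Λ'.card : ℝ) ≤ B1 := by exact_mod_cast hcard'
      exact mul_le_mul h3 h4 (by positivity) (by positivity)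
    have h3 : K₁ * ((∑ i ∈ I, nm (Ideal.span {lam}) / phi (qS lam i.2.2)) * ε') ≤ ε / 4 := by
      calc K₁ * ((∑ i ∈ I, nm (Ideal.span {lam}) / phi (qS lam i.2.2)) * ε')
          ≤ K₁ * (((B1 * B2 * B1) * GP) * ε') :=
            mul_le_mul_of_nonneg_left (mul_le_mul_of_nonneg_right h2 hε'.le) hK₁.le
        _ = (K₁ * ((B1 * B2 * B1) * GP)) * ε' := by ring
        _ ≤ (K₁ * ((B1 * B2 * B1) * GP) + 1) * ε' :=
            mul_le_mul_of_nonneg_right (by linarith) hε'.le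
        _ = ε / 4 := by rw [hε'd]; field_simp
    linarith
  · intro i hi
    rw [hI, mem_product, mem_product] at hi
    exact hwt0 _ hi.2.2
  · intro u t c hu ht hc
    have hcX : ∀ x ∈ X, cop x M := fun x hx => ((hX x).1 hx).1
    have hU : cop (∏ i, u i) M := cop_prod _ _ fun i _ => hcX _ (hu i)
    have hτ : (∏ i, t i) ≠ 0 := prod_ne_zero_iff.2 fun i _ => slot_ne hρ₂ hY (ht i)
    have hU0 : (∏ i, u i) ≠ 0 := prod_ne_zero_iff.2 fun i _ => slot_ne hρ₁ hX (hu i)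
    have hc0 : c ≠ 0 := slot_ne hρ₃ hC hc
    have hcM : cop c M := ((hC c).1 hc).1
    set U : 𝓞 K := ∏ i, u i with hUd
    set τ : 𝓞 K := ∏ i, t i with hτd
    have hcK : (c : K) ≠ 0 := by simpa using hc0
    have hτK : (τ : K) ≠ 0 := by simpa using hτ
    have hUK : (U : K) ≠ 0 := by simpa using hU0
    have hvc : ∀ v : InfinitePlace K, 0 < v (c : K) := fun v => InfinitePlace.pos_iff.2 hcK
    have hvτ : ∀ v : InfinitePlace K, 0 < v (τ : K) := fun v => InfinitePlace.pos_iff.2 hτK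
    have hvU : ∀ v : InfinitePlace K, 0 < v (U : K) := fun v => InfinitePlace.pos_iff.2 hUK
    have hRc : ∀ v : InfinitePlace K, Rb b (v (c : K) / DN) := fun v => Rb_slot hDN0 hs₃ hC hc v
    have hRτ : ∀ v : InfinitePlace K, Rb (b ^ (2 * r)) (v (τ : K) / E₀ ^ (2 * r)) :=
      fun v => Rb_prod hE₀0 hb hs₂ hY ht v
    have hRU : ∀ v : InfinitePlace K, Rb (b ^ (2 * r)) (v (U : K) / D ^ (2 * r)) :=
      fun v => Rb_prod hD0 hb hs₁ hX hu v
    -- `ζ`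
    have hζv : ∀ (x : K) (v : InfinitePlace K),
        ‖(E₀⁻¹ • E (x * c / ((lam * τ : 𝓞 K) : K))) v‖ =
          v x * v (c : K) / (v (lam : K) * v (τ : K)) / E₀ := by
      intro x v
      rw [Pi.smul_apply, norm_smul, norm_E, Real.norm_eq_abs, abs_of_pos (inv_pos.2 hE₀0)]
      push_cast
      rw [map_div₀, map_mul, map_mul]
      field_simp
    have hgc : ∀ k' ∈ Λ', ((gk' k' * c : 𝓞 K) : K) = a'.el k' * c := by
      intro k' hk'
      rw [← (hgk' k' (hΛ'1 k' hk')).1]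
      push_cast
      ring
    have hζ : ∀ k' ∈ Λ', L * ‖E₀⁻¹ • E (((gk' k' * c : 𝓞 K) : K) / ((lam * τ : 𝓞 K) : K))‖ * θ ≤
        ϑ := by
      intro k' hk'
      have h1 : ‖E₀⁻¹ • E (((gk' k' * c : 𝓞 K) : K) / ((lam * τ : 𝓞 K) : K))‖ ≤ Kζ := by
        rw [pi_norm_le_iff_of_nonneg hKζ0]
        intro v
        rw [hgc k' hk', hζv]
        exact (real_aux2 hC' hb hbr (hvc v) (hvl v) (hvτ v) hE₀0 hh'0 hDN0
          ((hΛ'mem k').1 hk' v) (hRτ v) (hRc v) hheq).2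
      calc L * ‖E₀⁻¹ • E (((gk' k' * c : 𝓞 K) : K) / ((lam * τ : 𝓞 K) : K))‖ * θ ≤ L * Kζ * θ :=
            mul_le_mul_of_nonneg_right (mul_le_mul_of_nonneg_left h1 hL0) hθ0.le
        _ ≤ ϑ := hθ2
    -- tiling
    have hRs : ∑ k' ∈ Λ', ρ₂ ((E₀⁻¹ • E (((gk' k' * c : 𝓞 K) : K) / ((lam * τ : 𝓞 K) : K))) *
        (1 - z₀)) = 1 := by
      set zz : Sp K := (E₀⁻¹ • E ((c : K) / ((lam * τ : 𝓞 K) : K))) * (1 - z₀) with hzz
      have h1 : ∀ k' : InfinitePlace K → ℤ, E (a'.el k') * zz =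
          (E₀⁻¹ • E (a'.el k' * c / ((lam * τ : 𝓞 K) : K))) * (1 - z₀) := by
        intro k'
        rw [hzz, ← mul_assoc, mul_smul_comm, ← map_mul, mul_div_assoc]
      have hltK : ((lam * τ : 𝓞 K) : K) ≠ 0 := by
        push_cast
        exact mul_ne_zero hlK hτK
      have hzz0 : ∀ v, zz v ≠ 0 := by
        intro v
        rw [hzz, Pi.mul_apply, Pi.smul_apply]
        exact mul_ne_zero (smul_ne_zero (inv_ne_zero hE₀0.ne') (E_ne (div_ne_zero hcK hltK) v))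
          (hz1.1 v)
      have h2 := tile_sum ht₂ hzz0 Λ' (fun k hk => by
        rw [hΛ'mem]
        intro v
        have h3 := hs₂ _ hk v
        rw [h1, Pi.mul_apply, norm_mul, hζv] at h3
        have h4 := real_aux1 hb hbr (hvel' k v) (hvc v) (hvl v) (hvτ v) hE₀0 hh'0 hDN0
          ((hs₅ v).pos hb) h3 (hs₅ v) (hRτ v) (hRc v) hheq
        exact h4)
      rw [← h2]
      refine sum_congr rfl fun k' hk' => ?_
      rw [h1, hgc k' hk']
    -- circle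
    have hcircle : ∀ k' ∈ Λ', |∑ k ∈ Λ, pN Ψ n X (pr (wl ρ₁ D) X) (A * gk k) U (gk' k') c - C₁| ≤
        Cc / D := by
      intro k' hk'
      have hg' := (hgk' k' (hΛ'1 k' hk')).1
      set z : Sp K := E ((A : K) * U / (a'.el k' * c)) with hz
      have hzne : (A : K) * U / (a'.el k' * c) ≠ 0 :=
        div_ne_zero (mul_ne_zero hAK hUK) (mul_ne_zero (hel' k') hcK)
      have h1 : ∀ (k : InfinitePlace K → ℤ) (x : 𝓞 K), E (a.el k) * (z * E (x : K)) =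
          E ((A : K) * a.el k * U * x / (a'.el k' * c)) := by
        intro k x
        rw [hz, ← map_mul, ← map_mul]
        congr 1
        ring
      have h2 := hcirc' D (by linarith) X hX z (RF_E hzne) Λ (fun k v hv hne => by
        rw [hΛmem]
        refine ⟨k', hk', fun v' => ?_⟩
        have hv' : ∀ i, v i ∈ X := fun i => Fintype.mem_piFinset.1 hv i
        have hx0 : (∏ i, v i) ≠ 0 := prod_ne_zero_iff.2 fun i _ => slot_ne hρ₁ hX (hv' i)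
        have hxK : ((∏ i, v i : 𝓞 K) : K) ≠ 0 := coe_ne hx0
        have h3 := near_size hb hs₄ hθ1 (hΨθ _ hne) v'
        rw [h1, norm_E, map_div₀, map_mul, map_mul, map_mul, map_mul] at h3
        exact real_aux3 hb (by linarith) hbr hbn (hvel' k' v') (hvc v') (hvA v') (hvU v')
          (InfinitePlace.pos_iff.2 hxK) hD0 hDN0 h3 (hRc v') (hRU v')
          (Rb_prod hD0 hb hs₁ hX hv' v') (by rw [← pow_add, hnN]))
      have h3 : ∑ k ∈ Λ, pN Ψ n X (pr (wl ρ₁ D) X) (A * gk k) U (gk' k') c =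
          ∑ k ∈ Λ, exk n X (pr (wl ρ₁ D) X) (fun v =>
            Ψ (E (a.el k) * (z * E ((∏ i, v i : 𝓞 K) : K)))) := by
        refine sum_congr rfl fun k hk => ?_
        unfold pN
        congr 1
        funext v
        rw [h1]
        unfold FN
        congr 2
        rw [← hg', ← (hgk k (hΛ1 k hk)).1]
        push_cast
        ring
      rw [h3]
      exact h2
    have hpt := core_ptN a a' Λ Λ' Ψ ρ₂ hΨ hρ₂ L θ ϑ E₀ (Cc / D) C₁ B1 z₀ hL hL0 hΨθ n X Y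
      (pr (wl ρ₁ D) X) (fun x _ => pr_nonneg (wl_nonneg hρ₁) x) A lam U τ c P hP hPhi hY hZ hlam
      hτ hc0 hcA hππ gk gk' (fun k hk => (hgk k (hΛ1 k hk)).1)
      (fun k hk => (hgk' k (hΛ'1 k hk)).1) (fun k hk => (hgk k (hΛ1 k hk)).2.2)
      (fun k hk => (hgk' k (hΛ'1 k hk)).2.2) (fun k hk => (hgk' k (hΛ'1 k hk)).2.1) hcX hU hcM hζ
      hRs hcircle (by exact_mod_cast hcard') hC₁ hϑ0.le hϑ1 hδ
    rw [← hγd] at hpt
    refine hpt.trans (le_of_eq ?_)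
    rw [hsum (fun k k' S => nm (Ideal.span {lam}) / phi (qS lam S) *
      erN Ψ n X (pr (wl ρ₁ D) X) (A * gk k) U τ (gk' k') c (qS lam S))]
    ring
  · intro i hi
    rw [hI, mem_product, mem_product] at hi
    have h1 := hD1 i.1 hi.1 i.2.1 hi.2.1 i.2.2 hi.2.2
    refine h1.2 D ?_ X Y C hX hY hC
    have := hD1le i.1 hi.1 i.2.1 hi.2.1 i.2.2 hi.2.2
    linarith

end Pool.Agent.T9h57.NF
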