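import Mathlib

/-!
# Expectations for independent slots with general weights
-/

set_option autoImplicit false

namespace Pool.Agent.T9h57.NF

open Finset

variable {α : Type} {β : Type}

/-- expectation of `f (x_1, ..., x_n)`, the `x_i ∈ S` independent with weight `p`. -/
noncomputable def exw (n : ℕ) (S : Finset α) (p : α → ℝ) (f : (Fin n → α) → ℝ) : ℝ :=
  ∑ x ∈ Fintype.piFinset (fun _ : Fin n => S), (∏ i, p (x i)) * f x

variable {n : ℕ} {S : Finset α} {p : α → ℝ}

theorem exw_congr {f g : (Fin n → α) → ℝ} (h : ∀ x, (∀ i, x i ∈ S) → f x = g x) :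
    exw n S p f = exw n S p g := by
  unfold exw
  refine sum_congr rfl fun x hx => ?_
  rw [h x (by simpa using hx)]

theorem exw_nonneg (hp : ∀ x ∈ S, 0 ≤ p x) {f : (Fin n → α) → ℝ}
    (h : ∀ x, (∀ i, x i ∈ S) → 0 ≤ f x) : 0 ≤ exw n S p f := by
  unfold exw
  refine sum_nonneg fun x hx => ?_
  have hx' : ∀ i, x i ∈ S := by simpa using hx
  exact mul_nonneg (prod_nonneg fun i _ => hp _ (hx' i)) (h x hx')

theorem exw_mono (hp : ∀ x ∈ S, 0 ≤ p x) {f g : (Fin n → α) → ℝ}
    (h : ∀ x, (∀ i, x i ∈ S) → f x ≤ g x) : exw n S p f ≤ exw n S p g := by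
  unfold exw
  refine sum_le_sum fun x hx => ?_
  have hx' : ∀ i, x i ∈ S := by simpa using hx
  exact mul_le_mul_of_nonneg_left (h x hx') (prod_nonneg fun i _ => hp _ (hx' i))

theorem exw_add (f g : (Fin n → α) → ℝ) :
    exw n S p (fun x => f x + g x) = exw n S p f + exw n S p g := by
  unfold exw
  rw [← sum_add_distrib]
  exact sum_congr rfl fun x _ => by ring

theorem exw_sub (f g : (Fin n → α) → ℝ) :
    exw n S p (fun x => f x - g x) = exw n S p f - exw n S p g := by
  unfold exw
  rw [← sum_sub_distrib]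
  exact sum_congr rfl fun x _ => by ring

theorem exw_mul_left (c : ℝ) (f : (Fin n → α) → ℝ) :
    exw n S p (fun x => c * f x) = c * exw n S p f := by
  unfold exw
  rw [mul_sum]
  exact sum_congr rfl fun x _ => by ring

theorem exw_mul_right (c : ℝ) (f : (Fin n → α) → ℝ) :
    exw n S p (fun x => f x * c) = exw n S p f * c := by
  unfold exw
  rw [sum_mul]
  exact sum_congr rfl fun x _ => by ring

theorem exw_div (c : ℝ) (f : (Fin n → α) → ℝ) :
    exw n S p (fun x => f x / c) = exw n S p f / c := by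
  simp only [div_eq_mul_inv]
  exact exw_mul_right _ _

theorem exw_sum (s : Finset β) (f : β → (Fin n → α) → ℝ) :
    exw n S p (fun x => ∑ a ∈ s, f a x) = ∑ a ∈ s, exw n S p (f a) := by
  unfold exw
  simp only [mul_sum]
  exact sum_comm

theorem exw_one_eq : exw n S p (fun _ => 1) = (∑ x ∈ S, p x) ^ n := by
  unfold exw
  simp only [mul_one]
  rw [← Finset.prod_univ_sum (fun _ : Fin n => S) (fun _ x => p x)]
  simp

theorem exw_const (h : ∑ x ∈ S, p x = 1) (c : ℝ) : exw n S p (fun _ => c) = c := by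
  have := exw_mul_left (n := n) (S := S) (p := p) c (fun _ => 1)
  simp only [mul_one] at this
  rw [this, exw_one_eq, h]
  simp

theorem exw_const_le (hp : ∀ x ∈ S, 0 ≤ p x) (h : ∑ x ∈ S, p x ≤ 1) {c : ℝ} (hc : 0 ≤ c) :
    exw n S p (fun _ => c) ≤ c := by
  have := exw_mul_left (n := n) (S := S) (p := p) c (fun _ => 1)
  simp only [mul_one] at this
  rw [this, exw_one_eq]
  have h1 : (∑ x ∈ S, p x) ^ n ≤ 1 := pow_le_one₀ (sum_nonneg fun x hx => hp x hx) h
  nlinarith

theorem exw_le_of_le (hp : ∀ x ∈ S, 0 ≤ p x) (hs : ∑ x ∈ S, p x ≤ 1)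
    {f : (Fin n → α) → ℝ} {c : ℝ} (hc : 0 ≤ c) (h : ∀ x, (∀ i, x i ∈ S) → f x ≤ c) :
    exw n S p f ≤ c := (exw_mono hp h).trans (exw_const_le hp hs hc)

/-- one slot. -/
theorem exw_one (f : (Fin 1 → α) → ℝ) : exw 1 S p f = ∑ x ∈ S, p x * f (fun _ => x) := by
  unfold exw
  refine Finset.sum_bij' (fun x _ => x 0) (fun x _ => fun _ => x) ?_ ?_ ?_ ?_ ?_
  · intro x hx
    simp only [Fintype.mem_piFinset] at hx
    exact hx 0
  · intro x hx
    simpa using hx
  · intro x _
    funext i
    rw [Subsingleton.elim i 0]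
  · intro x _
    rfl
  · intro x _
    have : (fun _ : Fin 1 => x 0) = x := by
      funext i
      rw [Subsingleton.elim i 0]
    simp [this]

/-- split off the first slot. -/
theorem exw_succ (f : (Fin (n + 1) → α) → ℝ) :
    exw (n + 1) S p f = ∑ a ∈ S, p a * exw n S p (fun x => f (Fin.cons a x)) := by
  unfold exw
  simp only [mul_sum]
  rw [← Finset.sum_product']
  symm
  refine Finset.sum_bij' (fun q _ => (Fin.cons q.1 q.2 : Fin (n + 1) → α))
    (fun x _ => (x 0, Fin.tail x)) ?_ ?_ ?_ ?_ ?_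
  · intro q hq
    simp only [mem_product, Fintype.mem_piFinset] at hq ⊢
    intro i
    refine Fin.cases ?_ (fun j => ?_) i
    · simpa using hq.1
    · simpa using hq.2 j
  · intro x hx
    simp only [mem_product, Fintype.mem_piFinset] at hx ⊢
    exact ⟨hx 0, fun j => hx j.succ⟩
  · intro q _
    simp
  · intro x _
    simp
  · intro q _
    rw [Fin.prod_univ_succ]
    simp only [Fin.cons_zero, Fin.cons_succ]
    ring

/-- interchange of two expectations. -/
theorem exw_comm {k : ℕ} {Y : Finset α} {q : α → ℝ} (f : (Fin n → α) → (Fin k → α) → ℝ) :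
    exw n S p (fun x => exw k Y q (fun y => f x y)) =
      exw k Y q (fun y => exw n S p (fun x => f x y)) := by
  unfold exw
  simp only [mul_sum]
  rw [sum_comm]
  refine sum_congr rfl fun y _ => sum_congr rfl fun x _ => by ring

theorem abs_exw_le (hp : ∀ x ∈ S, 0 ≤ p x) (f : (Fin n → α) → ℝ) :
    |exw n S p f| ≤ exw n S p (fun x => |f x|) := by
  unfold exw
  refine (abs_sum_le_sum_abs _ _).trans (sum_le_sum fun x hx => ?_)
  have hx' : ∀ i, x i ∈ S := by simpa using hx
  rw [abs_mul, abs_of_nonneg (prod_nonneg fun i _ => hp _ (hx' i))]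

end Pool.Agent.T9h57.NF
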