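import Mathlib

/-!
# Multiplication in `K_∞` and the volume
-/

set_option autoImplicit false

namespace Pool.Agent.T9h57.NF

open Finset NumberField NumberField.mixedEmbedding NumberField.InfinitePlace MeasureTheory
open scoped Classical

variable {K : Type*} [Field K] [NumberField K]

theorem mul_eq_prodMap (z : mixedSpace K) :
    LinearMap.mulLeft ℝ z = LinearMap.prodMap
      (LinearMap.pi (fun w => (LinearMap.mulLeft ℝ (z.1 w)).comp (LinearMap.proj w)))
      (LinearMap.pi (fun w => (LinearMap.mulLeft ℝ (z.2 w)).comp (LinearMap.proj w))) := by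
  refine LinearMap.ext fun x => ?_
  rfl

theorem det_mulLeft_complex (c : ℂ) : |LinearMap.det (LinearMap.mulLeft ℝ c)| = ‖c‖ ^ 2 := by
  have h : LinearMap.det (LinearMap.mulLeft ℝ c) = Algebra.norm ℝ c := by
    rw [Algebra.norm_apply]; rfl
  rw [h, Algebra.norm_complex_apply, Complex.normSq_eq_norm_sq, abs_of_nonneg (by positivity)]

theorem abs_det_mul (z : mixedSpace K) :
    |LinearMap.det (LinearMap.mulLeft ℝ z)| = mixedEmbedding.norm z := by
  rw [mul_eq_prodMap, LinearMap.det_prodMap, LinearMap.det_pi, LinearMap.det_pi,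
    mixedEmbedding.norm_apply, abs_mul, Finset.abs_prod, Finset.abs_prod,
    InfinitePlace.prod_eq_prod_mul_prod]
  congr 1
  · refine Finset.prod_congr rfl fun w _ => ?_
    rw [LinearMap.det_mulLeft, normAtPlace_apply_of_isReal w.2, InfinitePlace.mult, if_pos w.2,
      pow_one, Real.norm_eq_abs]
  · refine Finset.prod_congr rfl fun w _ => ?_
    rw [det_mulLeft_complex, normAtPlace_apply_of_isComplex w.2, InfinitePlace.mult,
      if_neg (not_isReal_iff_isComplex.2 w.2)]

theorem map_mul_volume {z : mixedSpace K} (hz : mixedEmbedding.norm z ≠ 0) :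
    Measure.map (fun x => z * x) (volume : Measure (mixedSpace K)) =
      ENNReal.ofReal ((mixedEmbedding.norm z)⁻¹) • (volume : Measure (mixedSpace K)) := by
  have h0 : LinearMap.det (LinearMap.mulLeft ℝ z) ≠ 0 := by
    intro h
    apply hz
    rw [← abs_det_mul, h, abs_zero]
  have h := Measure.map_linearMap_addHaar_eq_smul_addHaar (volume : Measure (mixedSpace K)) h0
  rw [abs_inv, abs_det_mul] at h
  exact h

/-- scaling of integrals. -/
theorem integral_mul_volume {z : mixedSpace K} (hz : mixedEmbedding.norm z ≠ 0)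
    (f : mixedSpace K → ℝ) :
    ∫ x, f (z * x) = (mixedEmbedding.norm z)⁻¹ * ∫ x, f x := by
  have h0 : LinearMap.det (LinearMap.mulLeft ℝ z) ≠ 0 := by
    intro h
    apply hz
    rw [← abs_det_mul, h, abs_zero]
  let e : mixedSpace K ≃ₗ[ℝ] mixedSpace K := LinearMap.equivOfDetNeZero _ h0
  have he : ∀ x, e x = z * x := fun x => rfl
  have hme : MeasurableEmbedding (fun x : mixedSpace K => z * x) := by
    have : (fun x : mixedSpace K => z * x) = e.toContinuousLinearEquiv.toHomeomorph := by
      funext x
      exact (he x).symm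
    rw [this]
    exact (Homeomorph.isClosedEmbedding _).measurableEmbedding
  have h1 := hme.integral_map (μ := volume) f
  rw [map_mul_volume hz, integral_smul_measure] at h1
  rw [← h1, ENNReal.toReal_ofReal (inv_nonneg.2 (mixedEmbedding.norm_nonneg z)), smul_eq_mul]

/-- invariance of the multiplicative measure. -/
theorem integral_mul_haar {z : mixedSpace K} (hz : mixedEmbedding.norm z ≠ 0)
    (f : mixedSpace K → ℝ) :
    ∫ x, f (z * x) / mixedEmbedding.norm x = ∫ x, f x / mixedEmbedding.norm x := by
  have h := integral_mul_volume hz (fun x => f x / mixedEmbedding.norm x)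
  have h2 : ∀ x : mixedSpace K, f (z * x) / mixedEmbedding.norm (z * x) =
      (mixedEmbedding.norm z)⁻¹ * (f (z * x) / mixedEmbedding.norm x) := by
    intro x
    rw [map_mul]
    by_cases hx : mixedEmbedding.norm x = 0
    · rw [hx]; simp
    · field_simp
  simp only [h2] at h
  rw [integral_const_mul] at h
  exact mul_left_cancel₀ (inv_ne_zero hz) h

end Pool.Agent.T9h57.NF
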