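import Pool.Agent.T9h11.NF.Spec2
import Pool.Agent.T9h57.QD.Basic
import Pool.Agent.T9h57.NF.Ex

/-!
# `CoreNOf`, part 1: basics
-/

set_option autoImplicit false

namespace Pool.Agent.T9h57.NF

open Finset NumberField Pool.Agent.T9h11.NF
open Pool.Agent.T9h57.QD (ind ind_true ind_false ind_nonneg ind_le_one ind_mono ind_congr ind_and)

variable {K : Type} [Field K] [NumberField K]

theorem norm_E (x : K) (v : InfinitePlace K) : ‖E x v‖ = v x :=
  InfinitePlace.norm_embedding_eq v x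

theorem E_ne {x : K} (hx : x ≠ 0) (v : InfinitePlace K) : E x v ≠ 0 := by
  rw [← norm_pos_iff, norm_E]
  exact InfinitePlace.pos_iff.2 hx

theorem E_div (x y : K) : E (x / y) = E x / E y := by
  funext v
  exact map_div₀ v.embedding x y

theorem E_inv (x : K) : E x⁻¹ = (E x)⁻¹ := by
  funext v
  exact map_inv₀ v.embedding x

theorem im_E (x : K) (v : InfinitePlace K) (hv : v.IsReal) : (E x v).im = 0 := by
  have h : ComplexEmbedding.IsReal v.embedding := InfinitePlace.isReal_iff.1 hv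
  have h1 : (starRingEnd ℂ) (v.embedding x) = v.embedding x := by
    have := RingHom.congr_fun (ComplexEmbedding.isReal_iff.1 h) x
    simpa using this
  exact Complex.conj_eq_iff_im.1 h1

theorem RF_E {x : K} (hx : x ≠ 0) : RF (E x) := ⟨E_ne hx, im_E x⟩

theorem nrm_mul (z w : Sp K) : nrm (z * w) = nrm z * nrm w := by
  unfold nrm
  rw [← prod_mul_distrib]
  exact prod_congr rfl fun v _ => by rw [Pi.mul_apply, norm_mul, mul_pow]

theorem nrm_pos {z : Sp K} (hz : ∀ v, z v ≠ 0) : 0 < nrm z := by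
  unfold nrm
  exact prod_pos fun v _ => pow_pos (norm_pos_iff.2 (hz v)) _

theorem nrm_E (x : K) : nrm (E x) = |((Algebra.norm ℚ x : ℚ) : ℝ)| := by
  have h := InfinitePlace.prod_eq_abs_norm x
  unfold nrm
  simp only [norm_E]
  rw [h]
  push_cast
  rfl

theorem nm_span (x : 𝓞 K) : nm (Ideal.span {x}) = nrm (E (x : K)) := by
  rw [nrm_E, ← Algebra.coe_norm_int]
  unfold nm
  rw [Ideal.absNorm_span_singleton]
  push_cast
  rw [Nat.cast_natAbs]
  push_cast
  rfl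

theorem nm_mul (I J : Ideal (𝓞 K)) : nm (I * J) = nm I * nm J := by
  unfold nm
  rw [map_mul]
  push_cast
  rfl

theorem nm_pos {I : Ideal (𝓞 K)} (h : I ≠ ⊥) : 0 < nm I := by
  unfold nm
  exact_mod_cast Nat.pos_of_ne_zero (fun h0 => h (Ideal.absNorm_eq_zero_iff.1 h0))

/-! ### coprimality -/

theorem cop_iff (x : 𝓞 K) (M : Ideal (𝓞 K)) : cop x M ↔ ∀ p : Ideal (𝓞 K), p.IsPrime → M ≤ p → x ∉ p := by
  unfold cop
  rw [Ideal.isCoprime_iff_sup_eq]
  constructor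
  · intro h p hp hM hx
    apply hp.ne_top
    rw [eq_top_iff, ← h]
    exact sup_le ((Ideal.span_singleton_le_iff_mem _).2 hx) hM
  · intro h
    by_contra hne
    obtain ⟨p, hp, hle⟩ := Ideal.exists_le_maximal _ hne
    exact h p hp.isPrime (le_sup_right.trans hle)
      ((Ideal.span_singleton_le_iff_mem _).1 (le_sup_left.trans hle))

theorem cop_span_iff (x y : 𝓞 K) :
    cop x (Ideal.span {y}) ↔ ∀ p : Ideal (𝓞 K), p.IsPrime → y ∈ p → x ∉ p := by
  rw [cop_iff]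
  refine forall_congr' fun p => forall_congr' fun _ => ?_
  rw [Ideal.span_singleton_le_iff_mem]

theorem cop_mul {x y : 𝓞 K} {M : Ideal (𝓞 K)} (hx : cop x M) (hy : cop y M) : cop (x * y) M := by
  rw [cop_iff] at hx hy ⊢
  intro p hp hM h
  rcases hp.mem_or_mem h with h1 | h1
  · exact hx p hp hM h1
  · exact hy p hp hM h1

theorem cop_prod {ι : Type} (s : Finset ι) (f : ι → 𝓞 K) {M : Ideal (𝓞 K)}
    (h : ∀ i ∈ s, cop (f i) M) : cop (∏ i ∈ s, f i) M := by
  classical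
  rw [cop_iff]
  intro p hp hM h1
  obtain ⟨i, hi, h2⟩ := (Ideal.IsPrime.prod_mem_iff).1 h1
  exact (cop_iff _ _).1 (h i hi) p hp hM h2

/-! ### slots -/

section slot

variable {ρ : Sp K → ℝ} {M : Ideal (𝓞 K)} {D : ℝ} {S : Finset (𝓞 K)}

theorem adm_zero (hρ : Adm ρ) {z : Sp K} (v : InfinitePlace K) (hz : z v = 0) : ρ z = 0 := by
  obtain ⟨c₁, c₂, hc, h⟩ := hρ.2.2.1
  by_contra h1
  have := (h z h1 v).1
  rw [hz, norm_zero] at this
  linarith

theorem slot_ne (hρ : Adm ρ) (hS : IsSlot ρ M D S) {x : 𝓞 K} (hx : x ∈ S) : x ≠ 0 := by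
  intro h
  have h1 := ((hS x).1 hx).2
  apply h1
  obtain ⟨v⟩ : Nonempty (InfinitePlace K) := inferInstance
  refine adm_zero hρ v ?_
  rw [h]
  simp [E]

theorem wl_nonneg (hρ : Adm ρ) (x : 𝓞 K) : 0 ≤ wl ρ D x := by
  unfold wl
  refine div_nonneg (hρ.1 _).1 ?_
  unfold nrm
  positivity

theorem wu_nonneg (hρ : Adm ρ) (x : 𝓞 K) : 0 ≤ wu ρ D x := (hρ.1 _).1

theorem pr_nonneg {f : 𝓞 K → ℝ} (hf : ∀ x, 0 ≤ f x) (x : 𝓞 K) : 0 ≤ pr f S x :=
  div_nonneg (hf x) (sum_nonneg fun y _ => hf y)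

theorem sum_pr {f : 𝓞 K → ℝ} (h : 0 < ∑ y ∈ S, f y) : ∑ x ∈ S, pr f S x = 1 := by
  unfold pr
  rw [← sum_div]
  exact div_self h.ne'

end slot

theorem exk_eq (n : ℕ) (S : Finset (𝓞 K)) (p : 𝓞 K → ℝ) (f : (Fin n → 𝓞 K) → ℝ) :
    exk n S p f = exw n S p f := rfl

end Pool.Agent.T9h57.NF
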