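import Pool.Agent.T9h57.NF.CoreNa

/-!
# `CoreNOf`, part 2: inclusion and exclusion
-/

set_option autoImplicit false

namespace Pool.Agent.T9h57.NF

open Finset NumberField Pool.Agent.T9h11.NF
open Pool.Agent.T9h57.QD (ind ind_true ind_false ind_nonneg ind_le_one ind_mono ind_congr ind_and)

variable {K : Type} [Field K] [NumberField K]

/-- `P` is the set of the prime ideals dividing `lam`. -/
def IsPr (lam : 𝓞 K) (P : Finset (Ideal (𝓞 K))) : Prop :=
  ∀ p : Ideal (𝓞 K), p ∈ P ↔ p.IsPrime ∧ lam ∈ p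

theorem exists_pr {lam : 𝓞 K} (h : lam ≠ 0) : ∃ P, IsPr lam P := by
  classical
  refine ⟨(UniqueFactorizationMonoid.normalizedFactors (Ideal.span {lam})).toFinset, fun p => ?_⟩
  have h0 : Ideal.span {lam} ≠ (⊥ : Ideal (𝓞 K)) := by
    rwa [Ne, Ideal.span_singleton_eq_bot]
  rw [Multiset.mem_toFinset, Ideal.mem_normalizedFactors_iff h0, Ideal.span_singleton_le_iff_mem]

theorem IsPr.ne_bot {lam : 𝓞 K} (h : lam ≠ 0) {P : Finset (Ideal (𝓞 K))} (hP : IsPr lam P)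
    {p : Ideal (𝓞 K)} (hp : p ∈ P) : p ≠ ⊥ := by
  intro h0
  have := ((hP p).1 hp).2
  rw [h0] at this
  exact h (by simpa using this)

theorem prod_mem_iff {S : Finset (Ideal (𝓞 K))} (hS : ∀ p ∈ S, p.IsPrime ∧ p ≠ ⊥) (y : 𝓞 K) :
    y ∈ ∏ p ∈ S, p ↔ ∀ p ∈ S, y ∈ p := by
  classical
  constructor
  · intro h p hp
    exact Ideal.dvd_iff_le.1 (Finset.dvd_prod_of_mem (fun p => p) hp) h
  · intro h
    rw [← Ideal.dvd_span_singleton]
    refine Finset.prod_primes_dvd _ (fun p hp => ?_) (fun p hp => ?_)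
    · exact Ideal.prime_of_isPrime (hS p hp).2 (hS p hp).1
    · exact Ideal.dvd_span_singleton.2 (h p hp)

theorem prod_ind {α : Type} (S : Finset α) (f : α → Prop) :
    ∏ p ∈ S, ind (f p) = ind (∀ p ∈ S, f p) := by
  classical
  induction S using Finset.induction_on with
  | empty =>
    rw [prod_empty]
    exact (ind_true (by simp)).symm
  | insert a s ha ih =>
    rw [prod_insert ha, ih, ← ind_and]
    exact ind_congr (by simp)

/-- inclusion and exclusion. -/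
theorem incl_excl {P : Finset (Ideal (𝓞 K))} (hP : ∀ p ∈ P, p.IsPrime ∧ p ≠ ⊥) (y : 𝓞 K) :
    ∑ S ∈ P.powerset, (-1 : ℝ) ^ S.card * ind (y ∈ ∏ p ∈ S, p) = ind (∀ p ∈ P, y ∉ p) := by
  classical
  have h1 : ∏ p ∈ P, (1 + -ind (y ∈ p)) = ind (∀ p ∈ P, y ∉ p) := by
    rw [← prod_ind]
    refine prod_congr rfl fun p _ => ?_
    by_cases h : y ∈ p
    · rw [ind_true h, ind_false (fun h' => h' h)]; norm_num
    · rw [ind_false h, ind_true h]; norm_num
  rw [← h1, prod_one_add]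
  refine sum_congr rfl fun S hS => ?_
  have hS' : ∀ p ∈ S, p.IsPrime ∧ p ≠ ⊥ := fun p hp => hP p (mem_powerset.1 hS hp)
  rw [ind_congr (prod_mem_iff hS' y), ← prod_ind, Finset.prod_neg]

/-- the modulus. -/
noncomputable def qS (lam : 𝓞 K) (S : Finset (Ideal (𝓞 K))) : Ideal (𝓞 K) :=
  Ideal.span {lam} * ∏ p ∈ S, p

/-- the main factor. -/
noncomputable def gam (lam : 𝓞 K) (P : Finset (Ideal (𝓞 K))) : ℝ :=
  ∑ S ∈ P.powerset, (-1 : ℝ) ^ S.card * (nm (Ideal.span {lam}) / phi (qS lam S))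

section

variable {lam : 𝓞 K} (hl : lam ≠ 0) {P : Finset (Ideal (𝓞 K))} (hP : IsPr lam P)

include hl in
theorem span_ne : Ideal.span {lam} ≠ (⊥ : Ideal (𝓞 K)) := by
  rwa [Ne, Ideal.span_singleton_eq_bot]

include hl hP

theorem prod_ne {S : Finset (Ideal (𝓞 K))} (hS : S ⊆ P) : ∏ p ∈ S, p ≠ (⊥ : Ideal (𝓞 K)) := by
  have h : ∏ p ∈ S, p ≠ (0 : Ideal (𝓞 K)) :=
    Finset.prod_ne_zero_iff.2 fun p hp => hP.ne_bot hl (hS hp)
  exact h

theorem qS_ne {S : Finset (Ideal (𝓞 K))} (hS : S ⊆ P) : qS lam S ≠ ⊥ := by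
  unfold qS
  exact mul_ne_zero (span_ne hl) (prod_ne hl hP hS)

theorem prime_of_dvd_prod {S : Finset (Ideal (𝓞 K))} (hS : S ⊆ P) {p : Ideal (𝓞 K)}
    (hp : p.IsPrime) (hd : p ∣ ∏ p ∈ S, p) : p ∈ P := by
  have h1 : ∏ p ∈ S, p ≤ p := Ideal.dvd_iff_le.1 hd
  obtain ⟨q, hq, hle⟩ := (hp.prod_le).1 h1
  have hq' := (hP q).1 (hS hq)
  exact (hP p).2 ⟨hp, hle hq'.2⟩

theorem PD_prod {S : Finset (Ideal (𝓞 K))} (hS : S ⊆ P) :
    PD (∏ p ∈ S, p) (Ideal.span {lam}) := by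
  intro p hp _ hd
  exact Ideal.dvd_span_singleton.2 ((hP p).1 (prime_of_dvd_prod hl hP hS hp hd)).2

theorem PD_qS {S : Finset (Ideal (𝓞 K))} (hS : S ⊆ P) {M : Ideal (𝓞 K)}
    (hM : M ≤ Ideal.span {lam}) : PD (qS lam S) M := by
  intro p hp h0 hd
  have h1 : qS lam S ≤ p := Ideal.dvd_iff_le.1 hd
  have h2 : lam ∈ p := by
    rcases (hp.mul_le).1 h1 with h3 | h3
    · exact h3 (Ideal.mem_span_singleton_self _)
    · exact ((hP p).1 (prime_of_dvd_prod hl hP hS hp (Ideal.dvd_iff_le.2 h3))).2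
  exact Ideal.dvd_iff_le.2 (hM.trans ((Ideal.span_singleton_le_iff_mem _).2 h2))

theorem phi_qS (hphi : PhiK K) {S : Finset (Ideal (𝓞 K))} (hS : S ⊆ P) :
    phi (qS lam S) = phi (Ideal.span {lam}) * nm (∏ p ∈ S, p) :=
  hphi.2.1 _ _ (span_ne hl) (prod_ne hl hP hS) (PD_prod hl hP hS)

omit hl hP in
theorem nm_prod (S : Finset (Ideal (𝓞 K))) : nm (∏ p ∈ S, p) = ∏ p ∈ S, nm p := by
  unfold nm
  rw [map_prod]
  push_cast
  rfl

omit [NumberField K] hl hP in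
theorem gam_aux {α : Type} (P : Finset α) (f : α → ℝ) :
    ∑ S ∈ P.powerset, (-1 : ℝ) ^ S.card * (1 / ∏ p ∈ S, f p) = ∏ p ∈ P, (1 - 1 / f p) := by
  classical
  have h1 : ∏ p ∈ P, (1 - 1 / f p) = ∏ p ∈ P, (1 + -(1 / f p)) := by
    refine prod_congr rfl fun p _ => by ring
  rw [h1, prod_one_add]
  refine sum_congr rfl fun S _ => ?_
  rw [Finset.prod_neg, prod_div_distrib, prod_const_one]

theorem gam_pos (hphi : PhiK K) : 0 < gam lam P := by
  unfold gam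
  have hφ := hphi.2.2 _ (span_ne hl)
  have hn := nm_pos (span_ne hl)
  have h1 : ∑ S ∈ P.powerset, (-1 : ℝ) ^ S.card * (nm (Ideal.span {lam}) / phi (qS lam S)) =
      nm (Ideal.span {lam}) / phi (Ideal.span {lam}) * ∏ p ∈ P, (1 - 1 / nm p) := by
    rw [← gam_aux, mul_sum]
    refine sum_congr rfl fun S hS => ?_
    rw [phi_qS hl hP hphi (mem_powerset.1 hS), nm_prod]
    have h2 : ∏ p ∈ S, nm p ≠ 0 :=
      prod_ne_zero_iff.2 fun p hp => (nm_pos (hP.ne_bot hl (mem_powerset.1 hS hp))).ne'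
    field_simp
  rw [h1]
  refine mul_pos (div_pos hn hφ) (prod_pos fun p hp => ?_)
  have hp' := (hP p).1 hp
  have h2 : (2 : ℝ) ≤ nm p := by
    unfold nm
    have h3 : 1 < Ideal.absNorm p := by
      have h4 : Ideal.absNorm p ≠ 1 := fun h => hp'.1.ne_top (Ideal.absNorm_eq_one_iff.1 h)
      have h5 : Ideal.absNorm p ≠ 0 := fun h => hP.ne_bot hl hp (Ideal.absNorm_eq_zero_iff.1 h)
      omega
    exact_mod_cast h3
  have h6 : 1 / nm p ≤ 1 / 2 := one_div_le_one_div_of_le (by norm_num) h2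
  linarith

end

/-- the condition on `y` by inclusion and exclusion. -/
theorem cond_eq {lam τ Δ : 𝓞 K} (hl : lam ≠ 0) (hτ : τ ≠ 0) {P : Finset (Ideal (𝓞 K))}
    (hP : IsPr lam P) :
    ind (∃ y : 𝓞 K, Δ = lam * τ * y ∧ ∀ p : Ideal (𝓞 K), p.IsPrime → lam ∈ p → y ∉ p) =
      ∑ S ∈ P.powerset, (-1 : ℝ) ^ S.card * ind (Δ ∈ qS lam S * Ideal.span {τ}) := by
  classical
  have hP' : ∀ p ∈ P, p.IsPrime ∧ p ≠ ⊥ := fun p hp => ⟨((hP p).1 hp).1, hP.ne_bot hl hp⟩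
  by_cases hΔ : ∃ y : 𝓞 K, Δ = lam * τ * y
  · obtain ⟨y, hy⟩ := hΔ
    have hlt : lam * τ ≠ 0 := mul_ne_zero hl hτ
    have h1 : ∀ S : Finset (Ideal (𝓞 K)), ind (Δ ∈ qS lam S * Ideal.span {τ}) =
        ind (y ∈ ∏ p ∈ S, p) := by
      intro S
      refine ind_congr ?_
      have h2 : qS lam S * Ideal.span {τ} = Ideal.span {lam * τ} * ∏ p ∈ S, p := by
        unfold qS
        rw [← Ideal.span_singleton_mul_span_singleton]
        ring
      rw [h2, hy]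
      constructor
      · intro h
        obtain ⟨z, hz, hzy⟩ := Ideal.mem_span_singleton_mul.1 h
        rwa [← mul_left_cancel₀ hlt hzy]
      · intro h
        exact Ideal.mem_span_singleton_mul.2 ⟨y, h, rfl⟩
    simp only [h1]
    rw [incl_excl hP' y]
    refine ind_congr ?_
    constructor
    · rintro ⟨y', hy', h⟩ p hp
      have : y' = y := mul_left_cancel₀ hlt (by rw [← hy', ← hy])
      rw [← this]
      exact h p ((hP p).1 hp).1 ((hP p).1 hp).2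
    · intro h
      exact ⟨y, hy, fun p hp hl' => h p ((hP p).2 ⟨hp, hl'⟩)⟩
  · rw [ind_false (fun ⟨y, hy, _⟩ => hΔ ⟨y, hy⟩)]
    symm
    refine sum_eq_zero fun S _ => ?_
    rw [ind_false, mul_zero]
    intro h
    apply hΔ
    have h2 : qS lam S * Ideal.span {τ} ≤ Ideal.span {lam * τ} := by
      unfold qS
      rw [← Ideal.span_singleton_mul_span_singleton]
      exact Ideal.mul_mono_left (Ideal.mul_le_inf.trans inf_le_left)
    obtain ⟨y, hy⟩ := Ideal.mem_span_singleton'.1 (h2 h)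
    exact ⟨y, by rw [← hy]; ring⟩

end Pool.Agent.T9h57.NF
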