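import Pool.Agent.T9h57.NF.CoreNb

/-!
# `CoreNOf`, part 3: the pointwise estimate
-/

set_option autoImplicit false

namespace Pool.Agent.T9h57.NF

open Finset NumberField Pool.Agent.T9h11.NF
open Pool.Agent.T9h57.QD (ind ind_true ind_false ind_nonneg ind_le_one ind_mono ind_congr ind_and)

/-- bookkeeping of the main term and the errors. -/
theorem final_sum {α β : Type} (Λ : Finset α) (Λ' : Finset β) (T V p Er : α → β → ℝ) (R : β → ℝ)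
    (γ C₁ δ₁ ϑ B' : ℝ) (hT : ∀ k ∈ Λ, ∀ k' ∈ Λ', |T k k' - R k' * V k k'| ≤ ϑ * V k k')
    (hV : ∀ k ∈ Λ, ∀ k' ∈ Λ', |V k k' - γ * p k k'| ≤ Er k k')
    (hR0 : ∀ k' ∈ Λ', 0 ≤ R k') (hR1 : ∀ k' ∈ Λ', R k' ≤ 1) (hRs : ∑ k' ∈ Λ', R k' = 1)
    (hc : ∀ k' ∈ Λ', |∑ k ∈ Λ, p k k' - C₁| ≤ δ₁) (hB : (Λ'.card : ℝ) ≤ B') (hγ : 0 < γ)
    (hC : 0 < C₁) (hϑ0 : 0 ≤ ϑ) (hϑ1 : ϑ ≤ 1) (hδ : 0 ≤ δ₁) :
    |1 / (γ * C₁) * ∑ k ∈ Λ, ∑ k' ∈ Λ', T k k' - 1| ≤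
      2 * B' * δ₁ / C₁ + 2 / (γ * C₁) * (∑ k ∈ Λ, ∑ k' ∈ Λ', Er k k') + ϑ * B' := by
  have hγC : 0 < γ * C₁ := mul_pos hγ hC
  set G : β → ℝ := fun k' => ∑ k ∈ Λ, V k k' with hG
  set Ek : β → ℝ := fun k' => ∑ k ∈ Λ, Er k k' with hEk
  have h1 : ∀ k' ∈ Λ', |G k' - γ * C₁| ≤ γ * δ₁ + Ek k' := by
    intro k' hk'
    have h2 : G k' - γ * C₁ = ∑ k ∈ Λ, (V k k' - γ * p k k') + γ * (∑ k ∈ Λ, p k k' - C₁) := by
      rw [hG, sum_sub_distrib, mul_sub, mul_sum]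
      ring
    rw [h2]
    refine (abs_add_le _ _).trans ?_
    have h3 : |∑ k ∈ Λ, (V k k' - γ * p k k')| ≤ Ek k' :=
      (abs_sum_le_sum_abs _ _).trans (sum_le_sum fun k hk => hV k hk k' hk')
    have h4 : |γ * (∑ k ∈ Λ, p k k' - C₁)| ≤ γ * δ₁ := by
      rw [abs_mul, abs_of_pos hγ]
      exact mul_le_mul_of_nonneg_left (hc k' hk') hγ.le
    linarith
  have hEs : ∑ k ∈ Λ, ∑ k' ∈ Λ', Er k k' = ∑ k' ∈ Λ', Ek k' := sum_comm
  have hTs : ∑ k ∈ Λ, ∑ k' ∈ Λ', T k k' = ∑ k' ∈ Λ', ∑ k ∈ Λ, T k k' := sum_comm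
  have hEk0 : ∀ k' ∈ Λ', 0 ≤ Ek k' := fun k' hk' =>
    sum_nonneg fun k hk => (abs_nonneg _).trans (hV k hk k' hk')
  have hcard0 : (0 : ℝ) ≤ Λ'.card := by positivity
  have hB0 : 0 ≤ B' := hcard0.trans hB
  -- sum of `V`
  have h5 : ∑ k' ∈ Λ', G k' ≤ B' * (γ * C₁ + γ * δ₁) + ∑ k' ∈ Λ', Ek k' := by
    calc ∑ k' ∈ Λ', G k' ≤ ∑ k' ∈ Λ', ((γ * C₁ + γ * δ₁) + Ek k') := by
          refine sum_le_sum fun k' hk' => ?_
          have := (abs_le.1 (h1 k' hk')).2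
          linarith
      _ = Λ'.card * (γ * C₁ + γ * δ₁) + ∑ k' ∈ Λ', Ek k' := by
          rw [sum_add_distrib, sum_const, nsmul_eq_mul]
      _ ≤ _ := by
          have : 0 ≤ γ * C₁ + γ * δ₁ := by positivity
          have := mul_le_mul_of_nonneg_right hB this
          linarith
  -- main term
  have h6 : |∑ k' ∈ Λ', R k' * G k' - γ * C₁| ≤ B' * (γ * δ₁) + ∑ k' ∈ Λ', Ek k' := by
    have h7 : ∑ k' ∈ Λ', R k' * G k' - γ * C₁ = ∑ k' ∈ Λ', R k' * (G k' - γ * C₁) := by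
      have : ∑ k' ∈ Λ', R k' * (G k' - γ * C₁) =
          ∑ k' ∈ Λ', R k' * G k' - (∑ k' ∈ Λ', R k') * (γ * C₁) := by
        rw [sum_mul, ← sum_sub_distrib]
        exact sum_congr rfl fun k' _ => by ring
      rw [this, hRs, one_mul]
    rw [h7]
    calc |∑ k' ∈ Λ', R k' * (G k' - γ * C₁)| ≤ ∑ k' ∈ Λ', |R k' * (G k' - γ * C₁)| :=
          abs_sum_le_sum_abs _ _
      _ ≤ ∑ k' ∈ Λ', (γ * δ₁ + Ek k') := by
          refine sum_le_sum fun k' hk' => ?_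
          rw [abs_mul, abs_of_nonneg (hR0 k' hk')]
          calc R k' * |G k' - γ * C₁| ≤ 1 * |G k' - γ * C₁| :=
                mul_le_mul_of_nonneg_right (hR1 k' hk') (abs_nonneg _)
            _ ≤ _ := by rw [one_mul]; exact h1 k' hk'
      _ = Λ'.card * (γ * δ₁) + ∑ k' ∈ Λ', Ek k' := by
          rw [sum_add_distrib, sum_const, nsmul_eq_mul]
      _ ≤ _ := by
          have : 0 ≤ γ * δ₁ := by positivity
          have := mul_le_mul_of_nonneg_right hB this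
          linarith
  have h8 : |∑ k' ∈ Λ', ∑ k ∈ Λ, T k k' - ∑ k' ∈ Λ', R k' * G k'| ≤ ϑ * ∑ k' ∈ Λ', G k' := by
    have h9 : ∑ k' ∈ Λ', ∑ k ∈ Λ, T k k' - ∑ k' ∈ Λ', R k' * G k' =
        ∑ k' ∈ Λ', ∑ k ∈ Λ, (T k k' - R k' * V k k') := by
      rw [← sum_sub_distrib]
      refine sum_congr rfl fun k' _ => ?_
      rw [sum_sub_distrib, mul_sum]
    rw [h9, mul_sum]
    refine (abs_sum_le_sum_abs _ _).trans (sum_le_sum fun k' hk' => ?_)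
    refine (abs_sum_le_sum_abs _ _).trans ?_
    rw [hG, mul_sum]
    exact sum_le_sum fun k hk => hT k hk k' hk'
  rw [hTs, hEs]
  set 𝒯 := ∑ k' ∈ Λ', ∑ k ∈ Λ, T k k'
  set ℰ := ∑ k' ∈ Λ', Ek k' with hℰ
  have hℰ0 : 0 ≤ ℰ := sum_nonneg hEk0
  have h10 : |𝒯 - γ * C₁| ≤ 2 * (B' * (γ * δ₁)) + 2 * ℰ + ϑ * B' * (γ * C₁) := by
    have h11 : |𝒯 - γ * C₁| ≤ |𝒯 - ∑ k' ∈ Λ', R k' * G k'| +
        |∑ k' ∈ Λ', R k' * G k' - γ * C₁| := by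
      have : 𝒯 - γ * C₁ = (𝒯 - ∑ k' ∈ Λ', R k' * G k') + (∑ k' ∈ Λ', R k' * G k' - γ * C₁) := by
        ring
      rw [this]
      exact abs_add_le _ _
    have h12 : ϑ * ∑ k' ∈ Λ', G k' ≤ ϑ * B' * (γ * C₁) + (B' * (γ * δ₁) + ℰ) := by
      have h13 := mul_le_mul_of_nonneg_left h5 hϑ0
      have h14 : 0 ≤ B' * (γ * δ₁) + ℰ := by positivity
      have h15 : ϑ * (B' * (γ * δ₁) + ℰ) ≤ 1 * (B' * (γ * δ₁) + ℰ) :=
        mul_le_mul_of_nonneg_right hϑ1 h14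
      nlinarith
    linarith
  have h16 : 1 / (γ * C₁) * 𝒯 - 1 = (𝒯 - γ * C₁) / (γ * C₁) := by
    field_simp
  rw [h16, abs_div, abs_of_pos hγC, div_le_iff₀ hγC]
  refine h10.trans (le_of_eq ?_)
  field_simp

variable {K : Type} [Field K] [NumberField K]

section

variable (Ψ : Sp K → ℝ) (lam : 𝓞 K) (n : ℕ) (X : Finset (𝓞 K)) (pX : 𝓞 K → ℝ)
  (A₀ U τ G c : 𝓞 K)

/-- the window. -/
noncomputable def FN (v : 𝓞 K) : ℝ :=
  Ψ (E (((A₀ * U * v : 𝓞 K) : K) / ((G * c : 𝓞 K) : K)))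

/-- probability of the window. -/
noncomputable def pN : ℝ := exk n X pX (fun v => FN Ψ A₀ U G c (∏ i, v i))

/-- window and congruence. -/
noncomputable def SN (I : Ideal (𝓞 K)) : ℝ :=
  exk n X pX (fun v => FN Ψ A₀ U G c (∏ i, v i) *
    ind (A₀ * U * (∏ i, v i) - G * c ∈ I * Ideal.span {τ}))

/-- the error. -/
noncomputable def erN (I : Ideal (𝓞 K)) : ℝ :=
  |phi I * nm (Ideal.span {τ}) * SN Ψ n X pX A₀ U τ G c I - pN Ψ n X pX A₀ U G c|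

/-- the condition on `y`. -/
noncomputable def CdN (v : 𝓞 K) : ℝ :=
  ind (∃ y : 𝓞 K, A₀ * U * v - G * c = lam * τ * y ∧
    ∀ p : Ideal (𝓞 K), p.IsPrime → lam ∈ p → y ∉ p)

/-- window and condition. -/
noncomputable def VN : ℝ :=
  nm (Ideal.span {lam}) * nm (Ideal.span {τ}) * exk n X pX (fun v =>
    FN Ψ A₀ U G c (∏ i, v i) * CdN lam A₀ U τ G c (∏ i, v i))

theorem VN_close (hl : lam ≠ 0) (hτ : τ ≠ 0) {P : Finset (Ideal (𝓞 K))} (hP : IsPr lam P)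
    (hphi : ∀ S ⊆ P, 0 < phi (qS lam S)) :
    |VN Ψ lam n X pX A₀ U τ G c - gam lam P * pN Ψ n X pX A₀ U G c| ≤
      ∑ S ∈ P.powerset, nm (Ideal.span {lam}) / phi (qS lam S) *
        erN Ψ n X pX A₀ U τ G c (qS lam S) := by
  have h1 : exk n X pX (fun v =>
      FN Ψ A₀ U G c (∏ i, v i) * CdN lam A₀ U τ G c (∏ i, v i)) =
      ∑ S ∈ P.powerset, (-1 : ℝ) ^ S.card * SN Ψ n X pX A₀ U τ G c (qS lam S) := by
    unfold SN
    simp only [exk_eq, ← exw_mul_left]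
    rw [← exw_sum]
    refine exw_congr fun v _ => ?_
    unfold CdN
    rw [cond_eq hl hτ hP, mul_sum]
    exact sum_congr rfl fun S _ => by ring
  have h2 : VN Ψ lam n X pX A₀ U τ G c - gam lam P * pN Ψ n X pX A₀ U G c =
      ∑ S ∈ P.powerset, (-1 : ℝ) ^ S.card * (nm (Ideal.span {lam}) / phi (qS lam S) *
        (phi (qS lam S) * nm (Ideal.span {τ}) * SN Ψ n X pX A₀ U τ G c (qS lam S) -
          pN Ψ n X pX A₀ U G c)) := by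
    unfold VN gam
    rw [h1, mul_sum, sum_mul, ← sum_sub_distrib]
    refine sum_congr rfl fun S hS => ?_
    have := (hphi S (mem_powerset.1 hS)).ne'
    field_simp
  rw [h2]
  refine (abs_sum_le_sum_abs _ _).trans (sum_le_sum fun S hS => ?_)
  have h3 : 0 ≤ nm (Ideal.span {lam}) / phi (qS lam S) :=
    div_nonneg (nm_pos (span_ne hl)).le (hphi S (mem_powerset.1 hS)).le
  rw [abs_mul, abs_pow, abs_neg, abs_one, one_pow, one_mul, abs_mul, abs_of_nonneg h3]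
  rfl

end

end Pool.Agent.T9h57.NF
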