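import Pool.Agent.T9h57.NF.CoreNc

/-!
# `CoreNOf`, part 4: the free `y`-slot
-/

set_option autoImplicit false

namespace Pool.Agent.T9h57.NF

open Finset NumberField Pool.Agent.T9h11.NF
open Pool.Agent.T9h57.QD (ind ind_true ind_false ind_nonneg ind_le_one ind_mono ind_congr ind_and)

variable {K : Type} [Field K] [NumberField K]

/-- sum over the `y`-slot. -/
noncomputable def QN (ρ₂ : Sp K → ℝ) (E₀ : ℝ) (Y : Finset (𝓞 K)) (lam A₀ U τ G c v : 𝓞 K) : ℝ :=
  ∑ y ∈ Y, ρ₂ (E₀⁻¹ • E (y : K)) * ind (A₀ * (U * v) + lam * (τ * y) = G * c)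

/-- the expectation over the free `y`-slot. -/
theorem ex_Wn (a a' : Absb K) (Λ Λ' : Finset (InfinitePlace K → ℤ)) (Ψ ρ₂ : Sp K → ℝ)
    (A lam : 𝓞 K) (κ E₀ : ℝ) (M : Ideal (𝓞 K)) (Y : Finset (𝓞 K)) (hρ : Adm ρ₂)
    (hY : IsSlot ρ₂ M E₀ Y) (gk gk' : (InfinitePlace K → ℤ) → 𝓞 K)
    (hg : ∀ k ∈ Λ, ((gk k : 𝓞 K) : K) = a.el k) (hg' : ∀ k ∈ Λ', ((gk' k : 𝓞 K) : K) = a'.el k)
    (U v τ c : 𝓞 K) :
    exk 1 Y (pr (wl ρ₂ E₀) Y) (fun y => Wn a a' Λ Λ' Ψ A lam κ (U * v) (τ * ∏ i, y i) c) =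
      κ / (∑ y ∈ Y, wl ρ₂ E₀ y) * nrm (E ((lam * τ : 𝓞 K) : K)) *
        ∑ k ∈ Λ, ∑ k' ∈ Λ', FN Ψ (A * gk k) U (gk' k') c v *
          QN ρ₂ E₀ Y lam (A * gk k) U τ (gk' k') c v := by
  classical
  set Z : ℝ := ∑ y ∈ Y, wl ρ₂ E₀ y with hZ
  rw [exk_eq, exw_one]
  have h1 : ∀ y ∈ Y, pr (wl ρ₂ E₀) Y y * Wn a a' Λ Λ' Ψ A lam κ (U * v) (τ * ∏ _i : Fin 1, y) c =
      κ / Z * nrm (E ((lam * τ : 𝓞 K) : K)) * ∑ k ∈ Λ, ∑ k' ∈ Λ',
        FN Ψ (A * gk k) U (gk' k') c v * (ρ₂ (E₀⁻¹ • E (y : K)) *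
          ind ((A * gk k) * (U * v) + lam * (τ * y) = (gk' k') * c)) := by
    intro y hy
    have hy0 : y ≠ 0 := slot_ne hρ hY hy
    have hy0' : (y : K) ≠ 0 := by simpa using hy0
    have hn : nrm (E (y : K)) ≠ 0 := (nrm_pos (E_ne hy0')).ne'
    have h2 : nrm (E ((lam * (τ * y) : 𝓞 K) : K)) =
        nrm (E ((lam * τ : 𝓞 K) : K)) * nrm (E (y : K)) := by
      rw [← nrm_mul, ← map_mul]
      congr 2
      push_cast
      ring
    have h3 : Wn a a' Λ Λ' Ψ A lam κ (U * v) (τ * ∏ _i : Fin 1, y) c =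
        κ * (nrm (E ((lam * τ : 𝓞 K) : K)) * nrm (E (y : K))) * ∑ k ∈ Λ, ∑ k' ∈ Λ',
          ind ((A * gk k) * (U * v) + lam * (τ * y) = (gk' k') * c) *
            FN Ψ (A * gk k) U (gk' k') c v := by
      unfold Wn
      simp only [prod_const, card_univ, Fintype.card_fin, pow_one]
      rw [← h2]
      congr 1
      refine sum_congr rfl fun k hk => sum_congr rfl fun k' hk' => ?_
      rw [← hg k hk, ← hg' k' hk']
      congr 1
      · refine ind_congr ?_
        constructor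
        · intro h
          have : (((A * gk k) * (U * v) + lam * (τ * y) : 𝓞 K) : K) = ((gk' k' * c : 𝓞 K) : K) := by
            push_cast at h ⊢
            rw [← h]
          exact_mod_cast this
        · intro h
          have : (((A * gk k) * (U * v) + lam * (τ * y) : 𝓞 K) : K) = ((gk' k' * c : 𝓞 K) : K) := by
            rw [h]
          push_cast at this ⊢
          rw [← this]
      · unfold FN
        congr 2
        push_cast
        ring
    rw [h3]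
    have h4 : pr (wl ρ₂ E₀) Y y = ρ₂ (E₀⁻¹ • E (y : K)) / nrm (E (y : K)) / Z := rfl
    rw [h4]
    have h5 : ∑ k ∈ Λ, ∑ k' ∈ Λ', FN Ψ (A * gk k) U (gk' k') c v * (ρ₂ (E₀⁻¹ • E (y : K)) *
          ind ((A * gk k) * (U * v) + lam * (τ * y) = (gk' k') * c)) =
        ρ₂ (E₀⁻¹ • E (y : K)) * ∑ k ∈ Λ, ∑ k' ∈ Λ',
          ind ((A * gk k) * (U * v) + lam * (τ * y) = (gk' k') * c) *
            FN Ψ (A * gk k) U (gk' k') c v := by
      rw [mul_sum]
      refine sum_congr rfl fun k _ => ?_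
      rw [mul_sum]
      exact sum_congr rfl fun k' _ => by ring
    rw [h5]
    field_simp
  rw [sum_congr rfl h1, ← mul_sum]
  congr 1
  rw [sum_comm]
  refine sum_congr rfl fun k _ => ?_
  rw [sum_comm]
  refine sum_congr rfl fun k' _ => ?_
  unfold QN
  rw [mul_sum]

theorem E_smul_norm (z w : Sp K) : ‖z * w‖ ≤ ‖z‖ * ‖w‖ := norm_mul_le z w

/-- the sum over `y` on the support of the window. -/
theorem QN_close (Ψ ρ₂ : Sp K → ℝ) (hΨ : Adm Ψ) (hρ : Adm ρ₂) (L θ ϑ E₀ : ℝ) (z₀ : Sp K)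
    (hL : ∀ z z', |ρ₂ z - ρ₂ z'| ≤ L * ‖z - z'‖) (hL0 : 0 ≤ L)
    (hθ : ∀ z, Ψ z ≠ 0 → ‖z - z₀‖ ≤ θ)
    (Y : Finset (𝓞 K)) (A lam π π' g g' U τ c v : 𝓞 K)
    (hY : IsSlot ρ₂ (Ideal.span {A * (lam * (π * π'))}) E₀ Y) (hlam : lam ≠ 0) (hτ : τ ≠ 0)
    (hg'0 : g' ≠ 0) (hc0 : c ≠ 0)
    (hA : cop A (Ideal.span {lam * (π * π')})) (hππ : cop π (Ideal.span {π'}))
    (hg : ∀ p : Ideal (𝓞 K), p.IsPrime → (g ∈ p ↔ π ∈ p))
    (hg' : ∀ p : Ideal (𝓞 K), p.IsPrime → (g' ∈ p ↔ π' ∈ p))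
    (hU : cop (U * v) (Ideal.span {A * (lam * (π * π'))}))
    (hc : cop c (Ideal.span {A * (lam * (π * π'))}))
    (hζ : L * ‖E₀⁻¹ • E (((g' * c : 𝓞 K) : K) / ((lam * τ : 𝓞 K) : K))‖ * θ ≤ ϑ) :
    |FN Ψ (A * g) U g' c v * QN ρ₂ E₀ Y lam (A * g) U τ g' c v -
      ρ₂ ((E₀⁻¹ • E (((g' * c : 𝓞 K) : K) / ((lam * τ : 𝓞 K) : K))) * (1 - z₀)) *
        (FN Ψ (A * g) U g' c v * CdN lam (A * g) U τ g' c v)| ≤
      ϑ * (FN Ψ (A * g) U g' c v * CdN lam (A * g) U τ g' c v) := by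
  classical
  rw [cop_span_iff] at hA hππ hU hc
  have hlt : lam * τ ≠ 0 := mul_ne_zero hlam hτ
  have hgc : g' * c ≠ 0 := mul_ne_zero hg'0 hc0
  have hlt' : ((lam * τ : 𝓞 K) : K) ≠ 0 := by simpa using hlt
  have hgc' : ((g' * c : 𝓞 K) : K) ≠ 0 := by simpa using hgc
  by_cases hF : FN Ψ (A * g) U g' c v = 0
  · rw [hF]; simp
  have hF0 : 0 ≤ FN Ψ (A * g) U g' c v := (hΨ.1 _).1
  by_cases hC : ∃ y : 𝓞 K, A * g * U * v - g' * c = lam * τ * y ∧
    ∀ p : Ideal (𝓞 K), p.IsPrime → lam ∈ p → y ∉ p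
  · obtain ⟨y₀, hy₀, hyp⟩ := hC
    have hCd : CdN lam (A * g) U τ g' c v = 1 := ind_true ⟨y₀, hy₀, hyp⟩
    set y₁ : 𝓞 K := -y₀ with hy₁
    have heq : A * g * (U * v) + lam * (τ * y₁) = g' * c := by
      have : A * g * U * v = g' * c + lam * τ * y₀ := by rw [← hy₀]; ring
      rw [hy₁]
      linear_combination this
    have hcopy : cop y₁ (Ideal.span {A * (lam * (π * π'))}) := by
      rw [cop_span_iff]
      intro p hp hM hy
      have hy' : lam * (τ * y₁) ∈ p := p.mul_mem_left _ (p.mul_mem_left _ hy)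
      have hUv := hU p hp hM
      have hcp := hc p hp hM
      have key1 : A * g * (U * v) ∈ p → False := by
        intro h
        have h1 : g' * c ∈ p := by rw [← heq]; exact p.add_mem h hy'
        rcases hp.mem_or_mem h1 with h2 | h2
        · have h3 := (hg' p hp).1 h2
          -- `π' ∈ p`
          rcases hp.mem_or_mem h with h4 | h4
          · rcases hp.mem_or_mem h4 with h5 | h5
            · exact hA p hp (p.mul_mem_left _ (p.mul_mem_left _ h3)) h5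
            · exact hππ p hp h3 ((hg p hp).1 h5)
          · exact hUv h4
        · exact hcp h2
      have key2 : π' ∈ p → False := by
        intro h
        have h1 : g' * c ∈ p := p.mul_mem_right _ ((hg' p hp).2 h)
        have h2 : A * g * (U * v) ∈ p := by
          have h3 := p.sub_mem h1 hy'
          rwa [← heq, add_sub_cancel_right] at h3
        exact key1 h2
      rcases hp.mem_or_mem hM with h1 | h1
      · exact key1 (p.mul_mem_right _ (p.mul_mem_right _ h1))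
      · rcases hp.mem_or_mem h1 with h2 | h2
        · apply hyp p hp h2
          have := p.neg_mem hy
          rwa [hy₁, neg_neg] at this
        · rcases hp.mem_or_mem h2 with h3 | h3
          · exact key1 (p.mul_mem_right _ (p.mul_mem_left _ ((hg p hp).2 h3)))
          · exact key2 h3
    have hQ : QN ρ₂ E₀ Y lam (A * g) U τ g' c v = ρ₂ (E₀⁻¹ • E (y₁ : K)) := by
      unfold QN
      by_cases hmem : y₁ ∈ Y
      · rw [sum_eq_single y₁]
        · rw [ind_true heq, mul_one]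
        · intro y _ hne
          rw [ind_false, mul_zero]
          intro h
          apply hne
          have h1 : lam * τ * y = lam * τ * y₁ := by linear_combination h - heq
          exact mul_left_cancel₀ hlt h1
        · intro h; exact absurd hmem h
      · have h0 : ρ₂ (E₀⁻¹ • E (y₁ : K)) = 0 := by
          by_contra h1
          exact hmem ((hY y₁).2 ⟨hcopy, h1⟩)
        rw [h0]
        refine sum_eq_zero fun y hy => ?_
        rw [ind_false, mul_zero]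
        intro h
        apply hmem
        have h1 : lam * τ * y = lam * τ * y₁ := by linear_combination h - heq
        rwa [← mul_left_cancel₀ hlt h1]
    set ζ : Sp K := E₀⁻¹ • E (((g' * c : 𝓞 K) : K) / ((lam * τ : 𝓞 K) : K)) with hζd
    set σ : Sp K := E (((A * g * U * v : 𝓞 K) : K) / ((g' * c : 𝓞 K) : K)) with hσ
    have hEy : E₀⁻¹ • E (y₁ : K) = ζ * (1 - σ) := by
      have h1 : (y₁ : K) = ((g' * c : 𝓞 K) : K) / ((lam * τ : 𝓞 K) : K) *
          (1 - ((A * g * U * v : 𝓞 K) : K) / ((g' * c : 𝓞 K) : K)) := by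
        rw [mul_sub, mul_one, div_mul_div_comm, mul_comm ((g' * c : 𝓞 K) : K),
          mul_div_mul_right _ _ hgc', ← sub_div, eq_div_iff hlt']
        have h2 : ((y₁ * (lam * τ) : 𝓞 K) : K) = ((g' * c - A * g * U * v : 𝓞 K) : K) := by
          congr 1
          linear_combination heq
        push_cast at h2 ⊢
        exact h2
      rw [h1, map_mul, map_sub, map_one, hζd, smul_mul_assoc]
    have hσz : ‖σ - z₀‖ ≤ θ := hθ σ hF
    have hdiff : |ρ₂ (E₀⁻¹ • E (y₁ : K)) - ρ₂ (ζ * (1 - z₀))| ≤ ϑ := by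
      refine (hL _ _).trans (le_trans ?_ hζ)
      rw [hEy, ← mul_sub, mul_assoc]
      refine mul_le_mul_of_nonneg_left ?_ hL0
      have h1 : (1 - σ) - (1 - z₀) = -(σ - z₀) := by ring
      rw [h1]
      refine (E_smul_norm _ _).trans ?_
      rw [norm_neg]
      exact mul_le_mul_of_nonneg_left hσz (norm_nonneg _)
    rw [hQ, hCd, mul_one]
    have h2 : FN Ψ (A * g) U g' c v * ρ₂ (E₀⁻¹ • E (y₁ : K)) -
        ρ₂ (ζ * (1 - z₀)) * FN Ψ (A * g) U g' c v =
        FN Ψ (A * g) U g' c v * (ρ₂ (E₀⁻¹ • E (y₁ : K)) - ρ₂ (ζ * (1 - z₀))) := by ring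
    rw [h2, abs_mul, abs_of_nonneg hF0, mul_comm ϑ]
    exact mul_le_mul_of_nonneg_left hdiff hF0
  · have hCd : CdN lam (A * g) U τ g' c v = 0 := ind_false hC
    have hQ : QN ρ₂ E₀ Y lam (A * g) U τ g' c v = 0 := by
      unfold QN
      refine sum_eq_zero fun y hy => ?_
      rw [ind_false, mul_zero]
      intro h
      apply hC
      refine ⟨-y, by linear_combination h, fun p hp hlp hyp => ?_⟩
      have h1 := (cop_span_iff _ _).1 ((hY y).1 hy).1 p hp
        (p.mul_mem_left _ (p.mul_mem_right _ hlp))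
      apply h1
      have := p.neg_mem hyp
      rwa [neg_neg] at this
    rw [hQ, hCd]
    simp

end Pool.Agent.T9h57.NF
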