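import Pool.Agent.T9h57.NF.CoreNd

/-!
# `CoreNOf`, part 5: the pointwise estimate
-/

set_option autoImplicit false

namespace Pool.Agent.T9h57.NF

open Finset NumberField Pool.Agent.T9h11.NF
open Pool.Agent.T9h57.QD (ind ind_true ind_false ind_nonneg ind_le_one ind_mono ind_congr ind_and)

variable {K : Type} [Field K] [NumberField K]

/-- the pointwise estimate. -/
theorem core_ptN (a a' : Absb K) (Λ Λ' : Finset (InfinitePlace K → ℤ)) (Ψ ρ₂ : Sp K → ℝ)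
    (hΨ : Adm Ψ) (hρ : Adm ρ₂) (L θ ϑ E₀ δ₁ C₁ B' : ℝ) (z₀ : Sp K)
    (hL : ∀ z z', |ρ₂ z - ρ₂ z'| ≤ L * ‖z - z'‖) (hL0 : 0 ≤ L)
    (hθ : ∀ z, Ψ z ≠ 0 → ‖z - z₀‖ ≤ θ) (n : ℕ) (X Y : Finset (𝓞 K)) (pX : 𝓞 K → ℝ)
    (hpX : ∀ x ∈ X, 0 ≤ pX x)
    (A lam U τ c : 𝓞 K) (P : Finset (Ideal (𝓞 K))) (hP : IsPr lam P) (hphi : PhiK K)
    (hY : IsSlot ρ₂ (Ideal.span {A * (lam * (a.pi * a'.pi))}) E₀ Y)
    (hZ : 0 < ∑ y ∈ Y, wl ρ₂ E₀ y) (hlam : lam ≠ 0) (hτ : τ ≠ 0) (hc0 : c ≠ 0)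
    (hA : cop A (Ideal.span {lam * (a.pi * a'.pi)})) (hππ : cop a.pi (Ideal.span {a'.pi}))
    (gk gk' : (InfinitePlace K → ℤ) → 𝓞 K)
    (hg : ∀ k ∈ Λ, ((gk k : 𝓞 K) : K) = a.el k) (hg' : ∀ k ∈ Λ', ((gk' k : 𝓞 K) : K) = a'.el k)
    (hgp : ∀ k ∈ Λ, ∀ p : Ideal (𝓞 K), p.IsPrime → (gk k ∈ p ↔ a.pi ∈ p))
    (hgp' : ∀ k ∈ Λ', ∀ p : Ideal (𝓞 K), p.IsPrime → (gk' k ∈ p ↔ a'.pi ∈ p))
    (hg0' : ∀ k ∈ Λ', gk' k ≠ 0)
    (hX : ∀ x ∈ X, cop x (Ideal.span {A * (lam * (a.pi * a'.pi))}))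
    (hU : cop U (Ideal.span {A * (lam * (a.pi * a'.pi))}))
    (hc : cop c (Ideal.span {A * (lam * (a.pi * a'.pi))}))
    (hζ : ∀ k' ∈ Λ', L * ‖E₀⁻¹ • E (((gk' k' * c : 𝓞 K) : K) / ((lam * τ : 𝓞 K) : K))‖ * θ ≤ ϑ)
    (hRs : ∑ k' ∈ Λ', ρ₂ ((E₀⁻¹ • E (((gk' k' * c : 𝓞 K) : K) / ((lam * τ : 𝓞 K) : K))) *
      (1 - z₀)) = 1)
    (hcirc : ∀ k' ∈ Λ', |∑ k ∈ Λ, pN Ψ n X pX (A * gk k) U (gk' k') c - C₁| ≤ δ₁)
    (hB : (Λ'.card : ℝ) ≤ B') (hC : 0 < C₁) (hϑ0 : 0 ≤ ϑ) (hϑ1 : ϑ ≤ 1) (hδ : 0 ≤ δ₁) :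
    |exk n X pX (fun v => exk 1 Y (pr (wl ρ₂ E₀) Y) (fun y =>
      Wn a a' Λ Λ' Ψ A lam ((∑ y ∈ Y, wl ρ₂ E₀ y) / (gam lam P * C₁)) (U * ∏ i, v i)
        (τ * ∏ i, y i) c)) - 1| ≤
      2 * B' * δ₁ / C₁ + 2 / (gam lam P * C₁) * (∑ k ∈ Λ, ∑ k' ∈ Λ', ∑ S ∈ P.powerset,
        nm (Ideal.span {lam}) / phi (qS lam S) *
          erN Ψ n X pX (A * gk k) U τ (gk' k') c (qS lam S)) + ϑ * B' := by
  classical
  have hγ := gam_pos hlam hP hphi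
  have hphi' : ∀ S ⊆ P, 0 < phi (qS lam S) := fun S hS => hphi.2.2 _ (qS_ne hlam hP hS)
  have hnn : 0 ≤ nm (Ideal.span {lam}) * nm (Ideal.span {τ}) :=
    mul_nonneg (nm_pos (span_ne hlam)).le (nm_pos (span_ne hτ)).le
  set T : (InfinitePlace K → ℤ) → (InfinitePlace K → ℤ) → ℝ := fun k k' =>
    nm (Ideal.span {lam}) * nm (Ideal.span {τ}) * exk n X pX (fun v =>
      FN Ψ (A * gk k) U (gk' k') c (∏ i, v i) *
        QN ρ₂ E₀ Y lam (A * gk k) U τ (gk' k') c (∏ i, v i)) with hT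
  have hmain : exk n X pX (fun v => exk 1 Y (pr (wl ρ₂ E₀) Y) (fun y =>
      Wn a a' Λ Λ' Ψ A lam ((∑ y ∈ Y, wl ρ₂ E₀ y) / (gam lam P * C₁)) (U * ∏ i, v i)
        (τ * ∏ i, y i) c)) = 1 / (gam lam P * C₁) * ∑ k ∈ Λ, ∑ k' ∈ Λ', T k k' := by
    have h1 : ∀ v : Fin n → 𝓞 K, exk 1 Y (pr (wl ρ₂ E₀) Y) (fun y =>
      Wn a a' Λ Λ' Ψ A lam ((∑ y ∈ Y, wl ρ₂ E₀ y) / (gam lam P * C₁)) (U * ∏ i, v i)
        (τ * ∏ i, y i) c) = 1 / (gam lam P * C₁) * (nm (Ideal.span {lam}) *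
          nm (Ideal.span {τ})) * ∑ k ∈ Λ, ∑ k' ∈ Λ', FN Ψ (A * gk k) U (gk' k') c (∏ i, v i) *
          QN ρ₂ E₀ Y lam (A * gk k) U τ (gk' k') c (∏ i, v i) := by
      intro v
      rw [ex_Wn a a' Λ Λ' Ψ ρ₂ A lam _ E₀ _ Y hρ hY gk gk' hg hg']
      congr 1
      have h2 : nrm (E ((lam * τ : 𝓞 K) : K)) = nm (Ideal.span {lam}) * nm (Ideal.span {τ}) := by
        rw [nm_span, nm_span, ← nrm_mul, ← map_mul]
        push_cast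
        rfl
      rw [h2]
      have h3 := hZ.ne'
      field_simp
    rw [exk_eq, exw_congr (fun v _ => h1 v), exw_mul_left, mul_assoc]
    congr 1
    rw [exw_sum, mul_sum]
    refine sum_congr rfl fun k _ => ?_
    rw [exw_sum, mul_sum]
    rfl
  rw [hmain]
  refine final_sum Λ Λ' T (fun k k' => VN Ψ lam n X pX (A * gk k) U τ (gk' k') c)
    (fun k k' => pN Ψ n X pX (A * gk k) U (gk' k') c) _
    (fun k' => ρ₂ ((E₀⁻¹ • E (((gk' k' * c : 𝓞 K) : K) / ((lam * τ : 𝓞 K) : K))) * (1 - z₀)))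
    (gam lam P) C₁ δ₁ ϑ B' ?_ ?_ (fun k' _ => (hρ.1 _).1) (fun k' _ => (hρ.1 _).2) hRs hcirc hB hγ hC
    hϑ0 hϑ1 hδ
  · intro k hk k' hk'
    simp only [hT, VN]
    rw [show nm (Ideal.span {lam}) * nm (Ideal.span {τ}) * exk n X pX (fun v =>
        FN Ψ (A * gk k) U (gk' k') c (∏ i, v i) *
          QN ρ₂ E₀ Y lam (A * gk k) U τ (gk' k') c (∏ i, v i)) -
        ρ₂ ((E₀⁻¹ • E (((gk' k' * c : 𝓞 K) : K) / ((lam * τ : 𝓞 K) : K))) * (1 - z₀)) *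
          (nm (Ideal.span {lam}) * nm (Ideal.span {τ}) * exk n X pX (fun v =>
            FN Ψ (A * gk k) U (gk' k') c (∏ i, v i) *
              CdN lam (A * gk k) U τ (gk' k') c (∏ i, v i))) =
        nm (Ideal.span {lam}) * nm (Ideal.span {τ}) * (exk n X pX (fun v =>
          FN Ψ (A * gk k) U (gk' k') c (∏ i, v i) *
            QN ρ₂ E₀ Y lam (A * gk k) U τ (gk' k') c (∏ i, v i)) -
          ρ₂ ((E₀⁻¹ • E (((gk' k' * c : 𝓞 K) : K) / ((lam * τ : 𝓞 K) : K))) * (1 - z₀)) *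
            exk n X pX (fun v => FN Ψ (A * gk k) U (gk' k') c (∏ i, v i) *
              CdN lam (A * gk k) U τ (gk' k') c (∏ i, v i))) by ring]
    rw [show ϑ * (nm (Ideal.span {lam}) * nm (Ideal.span {τ}) * exk n X pX (fun v =>
            FN Ψ (A * gk k) U (gk' k') c (∏ i, v i) *
              CdN lam (A * gk k) U τ (gk' k') c (∏ i, v i))) =
        nm (Ideal.span {lam}) * nm (Ideal.span {τ}) * (ϑ * exk n X pX (fun v =>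
            FN Ψ (A * gk k) U (gk' k') c (∏ i, v i) *
              CdN lam (A * gk k) U τ (gk' k') c (∏ i, v i))) by ring]
    rw [abs_mul, abs_of_nonneg hnn]
    refine mul_le_mul_of_nonneg_left ?_ hnn
    simp only [exk_eq]
    rw [← exw_mul_left, ← exw_mul_left, ← exw_sub]
    refine (abs_exw_le hpX _).trans (exw_mono hpX fun v hv => ?_)
    refine QN_close Ψ ρ₂ hΨ hρ L θ ϑ E₀ z₀ hL hL0 hθ Y A lam a.pi a'.pi (gk k) (gk' k') U τ c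
      (∏ i, v i) hY hlam hτ (hg0' k' hk') hc0 hA hππ (hgp k hk) (hgp' k' hk') ?_ hc (hζ k' hk')
    exact cop_mul hU (cop_prod _ _ fun i _ => hX _ (hv i))
  · intro k hk k' hk'
    exact VN_close Ψ lam n X pX (A * gk k) U τ (gk' k') c hlam hτ hP hphi'

end Pool.Agent.T9h57.NF
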