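import Pool.Agent.T9h57.NF.CoreNe

/-!
# `CoreNOf`, part 6: sizes
-/

set_option autoImplicit false

namespace Pool.Agent.T9h57.NF

open Finset NumberField Pool.Agent.T9h11.NF
open Pool.Agent.T9h57.QD (ind ind_true ind_false ind_nonneg ind_le_one ind_mono ind_congr ind_and)

/-- `x` is between `1/b` and `b`. -/
def Rb (b x : ℝ) : Prop := b⁻¹ ≤ x ∧ x ≤ b

theorem Rb.pos {b x : ℝ} (hb : 1 ≤ b) (h : Rb b x) : 0 < x :=
  lt_of_lt_of_le (inv_pos.2 (by linarith)) h.1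

theorem Rb.mul {b b' x x' : ℝ} (hb : 1 ≤ b) (hb' : 1 ≤ b') (h : Rb b x) (h' : Rb b' x') :
    Rb (b * b') (x * x') := by
  have h1 := h.pos hb
  have h2 := h'.pos hb'
  have h3 : 0 < b⁻¹ := inv_pos.2 (by linarith)
  have h4 : 0 < b'⁻¹ := inv_pos.2 (by linarith)
  refine ⟨?_, mul_le_mul h.2 h'.2 h2.le (by linarith)⟩
  rw [mul_inv]
  exact mul_le_mul h.1 h'.1 h4.le h1.le

theorem Rb.inv {b x : ℝ} (hb : 1 ≤ b) (h : Rb b x) : Rb b x⁻¹ := by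
  have h1 := h.pos hb
  have hb0 : 0 < b := by linarith
  refine ⟨inv_anti₀ h1 h.2, ?_⟩
  have := inv_anti₀ (inv_pos.2 hb0) h.1
  rwa [inv_inv] at this

theorem Rb.mono {b b' x : ℝ} (hb : 1 ≤ b) (hbb : b ≤ b') (h : Rb b x) : Rb b' x :=
  ⟨(inv_anti₀ (by linarith) hbb).trans h.1, h.2.trans hbb⟩

theorem Rb.prod {m : ℕ} {b : ℝ} (hb : 1 ≤ b) (x : Fin m → ℝ) (h : ∀ i, Rb b (x i)) :
    Rb (b ^ m) (∏ i, x i) := by
  constructor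
  · rw [← inv_pow]
    calc b⁻¹ ^ m = ∏ _i : Fin m, b⁻¹ := by simp
      _ ≤ ∏ i, x i := prod_le_prod (fun i _ => inv_nonneg.2 (by linarith)) fun i _ => (h i).1
  · calc ∏ i, x i ≤ ∏ _i : Fin m, b := prod_le_prod (fun i _ => ((h i).pos hb).le) fun i _ => (h i).2
      _ = b ^ m := by simp

variable {K : Type} [Field K] [NumberField K]

theorem exists_b {ρ : Sp K → ℝ} (hρ : Adm ρ) :
    ∃ b : ℝ, 1 ≤ b ∧ ∀ z, ρ z ≠ 0 → ∀ v, Rb b ‖z v‖ := by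
  obtain ⟨c₁, c₂, hc, h⟩ := hρ.2.2.1
  refine ⟨max 1 (max c₂ c₁⁻¹), le_max_left _ _, fun z hz v => ⟨?_, ?_⟩⟩
  · refine le_trans ?_ (h z hz v).1
    have h1 : c₁⁻¹ ≤ max 1 (max c₂ c₁⁻¹) := (le_max_right _ _).trans (le_max_right _ _)
    have h2 := inv_anti₀ (inv_pos.2 hc) h1
    rwa [inv_inv] at h2
  · exact (h z hz v).2.trans ((le_max_left _ _).trans (le_max_right _ _))

theorem exists_b' {z : Sp K} (hz : ∀ v, z v ≠ 0) : ∃ b : ℝ, 1 ≤ b ∧ ∀ v, Rb b ‖z v‖ := by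
  classical
  have h0 : ∀ v, 0 < ‖z v‖ := fun v => norm_pos_iff.2 (hz v)
  refine ⟨1 + ∑ v, (‖z v‖ + ‖z v‖⁻¹), ?_, fun v => ?_⟩
  · have : 0 ≤ ∑ v, (‖z v‖ + ‖z v‖⁻¹) := sum_nonneg fun v _ => by positivity
    linarith
  · have h1 : ‖z v‖ + ‖z v‖⁻¹ ≤ ∑ v, (‖z v‖ + ‖z v‖⁻¹) :=
      single_le_sum (f := fun v => ‖z v‖ + ‖z v‖⁻¹) (fun v _ => by positivity) (mem_univ v)
    have h2 := h0 v
    have h3 : 0 < ‖z v‖⁻¹ := inv_pos.2 h2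
    constructor
    · have h4 : ‖z v‖⁻¹ ≤ 1 + ∑ v, (‖z v‖ + ‖z v‖⁻¹) := by linarith
      have h5 := inv_anti₀ h3 h4
      rwa [inv_inv] at h5
    · linarith

/-- elements of a slot. -/
theorem Rb_slot {ρ : Sp K → ℝ} {M : Ideal (𝓞 K)} {D b : ℝ} {S : Finset (𝓞 K)} (hD : 0 < D)
    (hb : ∀ z, ρ z ≠ 0 → ∀ v, Rb b ‖z v‖) (hS : IsSlot ρ M D S) {x : 𝓞 K} (hx : x ∈ S)
    (v : InfinitePlace K) : Rb b (v (x : K) / D) := by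
  have h1 := hb _ ((hS x).1 hx).2 v
  have h2 : ‖(D⁻¹ • E (x : K)) v‖ = v (x : K) / D := by
    rw [Pi.smul_apply, norm_smul, norm_E, Real.norm_eq_abs, abs_of_pos (inv_pos.2 hD)]
    field_simp
  rwa [h2] at h1

theorem Rb_prod {ρ : Sp K → ℝ} {M : Ideal (𝓞 K)} {D b : ℝ} {S : Finset (𝓞 K)} (hD : 0 < D)
    (hb1 : 1 ≤ b) (hb : ∀ z, ρ z ≠ 0 → ∀ v, Rb b ‖z v‖) (hS : IsSlot ρ M D S) {m : ℕ}
    {x : Fin m → 𝓞 K} (hx : ∀ i, x i ∈ S) (v : InfinitePlace K) :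
    Rb (b ^ m) (v ((∏ i, x i : 𝓞 K) : K) / D ^ m) := by
  have h1 : v ((∏ i, x i : 𝓞 K) : K) / D ^ m = ∏ i, (v (x i : K) / D) := by
    rw [prod_div_distrib, prod_const, card_univ, Fintype.card_fin]
    congr 1
    push_cast
    rw [map_prod]
  rw [h1]
  exact Rb.prod hb1 _ fun i => Rb_slot hD hb hS (hx i) v

theorem nrm_ge {z : Sp K} {q : ℝ} (hq : 0 ≤ q) (h : ∀ v, q ≤ ‖z v‖) :
    q ^ Module.finrank ℚ K ≤ nrm z := by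
  unfold nrm
  rw [← InfinitePlace.sum_mult_eq, ← prod_pow_eq_pow_sum]
  exact prod_le_prod (fun v _ => pow_nonneg hq _) fun v _ => pow_le_pow_left₀ hq (h v) _

end Pool.Agent.T9h57.NF
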