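import Pool.Agent.T9h57.NF.CoreNf

/-!
# `CoreNOf`, part 7: averages, group elements
-/

set_option autoImplicit false

namespace Pool.Agent.T9h57.NF

open Finset NumberField Pool.Agent.T9h11.NF
open Pool.Agent.T9h57.QD (ind ind_true ind_false ind_nonneg ind_le_one ind_mono ind_congr ind_and)

/-- averages over three groups of slots. -/
theorem av_le {α ι : Type} {m m' : ℕ} (X Y C : Finset α) (p q s : α → ℝ)
    (hp : ∀ x ∈ X, 0 ≤ p x) (hq : ∀ x ∈ Y, 0 ≤ q x) (hs : ∀ x ∈ C, 0 ≤ s x)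
    (hp1 : ∑ x ∈ X, p x = 1) (hq1 : ∑ x ∈ Y, q x = 1) (hs1 : ∑ x ∈ C, s x = 1)
    (f : (Fin m → α) → (Fin m' → α) → α → ℝ) (I : Finset ι) (wt : ι → ℝ)
    (g : ι → (Fin m → α) → (Fin m' → α) → α → ℝ) (K₀ K₁ ε' : ℝ) (hK₁ : 0 ≤ K₁)
    (hwt : ∀ i ∈ I, 0 ≤ wt i)
    (hf : ∀ u t c, (∀ i, u i ∈ X) → (∀ i, t i ∈ Y) → c ∈ C →
      f u t c ≤ K₀ + K₁ * ∑ i ∈ I, wt i * g i u t c)
    (hg : ∀ i ∈ I, exw m X p (fun u => exw m' Y q (fun t => ∑ c ∈ C, s c * g i u t c)) ≤ ε') :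
    exw m X p (fun u => exw m' Y q (fun t => ∑ c ∈ C, s c * f u t c)) ≤
      K₀ + K₁ * ((∑ i ∈ I, wt i) * ε') := by
  have h1 : exw m X p (fun u => exw m' Y q (fun t => ∑ c ∈ C, s c * f u t c)) ≤
      exw m X p (fun u => exw m' Y q (fun t => K₀ + K₁ * ∑ i ∈ I, wt i *
        ∑ c ∈ C, s c * g i u t c)) := by
    refine exw_mono hp fun u hu => exw_mono hq fun t ht => ?_
    calc ∑ c ∈ C, s c * f u t c ≤ ∑ c ∈ C, s c * (K₀ + K₁ * ∑ i ∈ I, wt i * g i u t c) :=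
          sum_le_sum fun c hc => mul_le_mul_of_nonneg_left (hf u t c hu ht hc) (hs c hc)
      _ = K₀ + K₁ * ∑ i ∈ I, wt i * ∑ c ∈ C, s c * g i u t c := by
          have h2 : ∀ c ∈ C, s c * (K₀ + K₁ * ∑ i ∈ I, wt i * g i u t c) =
              s c * K₀ + K₁ * ∑ i ∈ I, wt i * (s c * g i u t c) := by
            intro c _
            rw [mul_add, mul_left_comm, mul_sum]
            congr 2
            exact sum_congr rfl fun i _ => by ring
          rw [sum_congr rfl h2, sum_add_distrib, ← sum_mul, hs1, one_mul, ← mul_sum, sum_comm]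
          congr 2
          exact sum_congr rfl fun i _ => by rw [mul_sum]
  refine h1.trans ?_
  have h3 : exw m X p (fun u => exw m' Y q (fun t => K₀ + K₁ * ∑ i ∈ I, wt i *
        ∑ c ∈ C, s c * g i u t c)) = K₀ + K₁ * ∑ i ∈ I, wt i *
        exw m X p (fun u => exw m' Y q (fun t => ∑ c ∈ C, s c * g i u t c)) := by
    have h4 : ∀ u : Fin m → α, exw m' Y q (fun t => K₀ + K₁ * ∑ i ∈ I, wt i *
        ∑ c ∈ C, s c * g i u t c) = K₀ + K₁ * ∑ i ∈ I, wt i *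
          exw m' Y q (fun t => ∑ c ∈ C, s c * g i u t c) := by
      intro u
      rw [exw_add, exw_const hq1, exw_mul_left, exw_sum]
      congr 2
      exact sum_congr rfl fun i _ => exw_mul_left _ _
    simp only [h4]
    rw [exw_add, exw_const hp1, exw_mul_left, exw_sum]
    congr 2
    exact sum_congr rfl fun i _ => exw_mul_left _ _
  rw [h3]
  have h5 : ∑ i ∈ I, wt i *
        exw m X p (fun u => exw m' Y q (fun t => ∑ c ∈ C, s c * g i u t c)) ≤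
      (∑ i ∈ I, wt i) * ε' := by
    rw [sum_mul]
    exact sum_le_sum fun i hi => mul_le_mul_of_nonneg_left (hg i hi) (hwt i hi)
  have := mul_le_mul_of_nonneg_left h5 hK₁
  linarith

variable {K : Type} [Field K] [NumberField K]

/-- integral representatives of the group elements. -/
theorem exists_gk (hAI : AbsInt K) (a : Absb K) : ∃ gk : (InfinitePlace K → ℤ) → 𝓞 K,
    ∀ k, 1 ≤ k a.i₀ → ((gk k : 𝓞 K) : K) = a.el k ∧ gk k ≠ 0 ∧
      ∀ p : Ideal (𝓞 K), p.IsPrime → (gk k ∈ p ↔ a.pi ∈ p) := by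
  have h1 : ∀ k : InfinitePlace K → ℤ, ∃ g : 𝓞 K, 1 ≤ k a.i₀ → (g : K) = a.el k ∧ g ≠ 0 ∧
      ∀ p : Ideal (𝓞 K), p.IsPrime → (g ∈ p ↔ a.pi ∈ p) := by
    intro k
    by_cases hk : 1 ≤ k a.i₀
    · obtain ⟨h2, h3, h4⟩ := (hAI a).2.2 k
      obtain ⟨g, hg, hgs⟩ := h4 (by omega)
      refine ⟨g, fun _ => ⟨hg, ?_, fun p hp => ?_⟩⟩
      · intro h0
        apply h3
        rw [← hg, h0]
        simp
      · have hn : (k a.i₀).toNat ≠ 0 := by omega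
        rw [← Ideal.span_singleton_le_iff_mem, hgs, hp.pow_le_iff hn,
          Ideal.span_singleton_le_iff_mem]
    · exact ⟨1, fun h => absurd h hk⟩
  choose gk hgk using h1
  exact ⟨gk, hgk⟩

theorem one_le_nrm {x : 𝓞 K} (hx : x ≠ 0) : 1 ≤ nrm (E (x : K)) := by
  rw [← nm_span]
  unfold nm
  have : 0 < Ideal.absNorm (Ideal.span {x}) := by
    apply Nat.pos_of_ne_zero
    intro h
    rw [Ideal.absNorm_eq_zero_iff, Ideal.span_singleton_eq_bot] at h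
    exact hx h
  exact_mod_cast this

/-- positivity of the exponent. -/
theorem exp_pos (hAI : AbsInt K) (a : Absb K) (k : InfinitePlace K → ℤ)
    (h : 1 < nrm (E (a.el k))) : 1 ≤ k a.i₀ := by
  obtain ⟨h1, _, h2⟩ := hAI a
  rw [(h2 k).1] at h
  by_contra hk
  have h3 : nrm (E (a.pi : K)) ^ k a.i₀ ≤ 1 := zpow_le_one_of_nonpos₀ h1.le (by omega)
  linarith

/-- the tiling property for a given finite set. -/
theorem tile_sum {a : Absb K} {ρ : Sp K → ℝ} (ht : Tile a ρ) {z : Sp K} (hz : ∀ v, z v ≠ 0)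
    (Λ : Finset (InfinitePlace K → ℤ)) (hΛ : ∀ k, ρ (E (a.el k) * z) ≠ 0 → k ∈ Λ) :
    ∑ k ∈ Λ, ρ (E (a.el k) * z) = 1 := by
  classical
  obtain ⟨S, hS, hsum⟩ := ht.2 z hz
  rw [← hsum, ← Finset.sum_filter_ne_zero (s := Λ), ← Finset.sum_filter_ne_zero (s := S)]
  refine sum_congr ?_ fun _ _ => rfl
  ext k
  rw [mem_filter, mem_filter]
  exact ⟨fun h => ⟨hS k h.2, h.2⟩, fun h => ⟨hΛ k h.2, h.2⟩⟩

/-- size of `λ'`. -/
theorem real_aux1 {b B1 g c l t e w h dN : ℝ} (hb : 1 ≤ b) (hB1 : 1 ≤ B1) {m : ℕ}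
    (hg : 0 < g) (hc : 0 < c) (hl : 0 < l) (ht : 0 < t) (he : 0 < e) (hh : 0 < h) (hdN : 0 < dN)
    (hw : 0 < w)
    (hy : Rb b (g * c / (l * t) / e * w)) (hwb : Rb b w) (htb : Rb B1 (t / e ^ m))
    (hcb : Rb b (c / dN)) (heq : e ^ m * e = h * dN) : Rb (b * b * B1 * b) (g / (l * h)) := by
  have h1 := ((hy.mul hb hb (hwb.inv hb)).mul (by nlinarith) hB1 htb).mul
    (by nlinarith [mul_nonneg (sub_nonneg.2 hb) (sub_nonneg.2 hb)]) hb (hcb.inv hb)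
  have h2 : g * c / (l * t) / e * w * w⁻¹ * (t / e ^ m) * (c / dN)⁻¹ = g / (l * h) := by
    have h3 : g * c / (l * t) / e * w * w⁻¹ * (t / e ^ m) * (c / dN)⁻¹ =
        g * dN / (l * (e ^ m * e)) := by
      field_simp
    rw [h3, heq]
    field_simp
  rwa [h2] at h1

/-- size of `ζ`. -/
theorem real_aux2 {C' b B1 g c l t e h dN : ℝ} (hC' : 1 ≤ C') (hb : 1 ≤ b) (hB1 : 1 ≤ B1) {m : ℕ}
    (hc : 0 < c) (hl : 0 < l) (ht : 0 < t) (he : 0 < e) (hh : 0 < h) (hdN : 0 < dN)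
    (hg : Rb C' (g / (l * h))) (htb : Rb B1 (t / e ^ m))
    (hcb : Rb b (c / dN)) (heq : e ^ m * e = h * dN) : Rb (C' * b * B1) (g * c / (l * t) / e) := by
  have h1 := (hg.mul hC' hb hcb).mul (by nlinarith) hB1 (htb.inv hB1)
  have h2 : g / (l * h) * (c / dN) * (t / e ^ m)⁻¹ = g * c / (l * t) / e := by
    have h3 : g / (l * h) * (c / dN) * (t / e ^ m)⁻¹ = g * c / (l * t) * (e ^ m / (h * dN)) := by
      field_simp
    rw [h3, ← heq]
    field_simp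
  rwa [h2] at h1

/-- size of `λ`. -/
theorem real_aux3 {b b' B2 B3 g g' c A u v d dN : ℝ} (hb : 1 ≤ b) (hb' : 1 ≤ b') (hB2 : 1 ≤ B2)
    (hB3 : 1 ≤ B3) {m n : ℕ} (hg' : 0 < g') (hc : 0 < c) (hA : 0 < A) (hu : 0 < u) (hv : 0 < v)
    (hd : 0 < d) (hdN : 0 < dN)
    (hσ : Rb b' (A * g * u * v / (g' * c))) (hcb : Rb b (c / dN)) (hub : Rb B2 (u / d ^ m))
    (hvb : Rb B3 (v / d ^ n)) (heq : d ^ m * d ^ n = dN) :
    Rb (b' * b * B2 * B3) (g * (A * g'⁻¹)) := by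
  have hbb : 1 ≤ b' * b := by nlinarith
  have h1 := ((hσ.mul hb' hb hcb).mul hbb hB2 (hub.inv hB2)).mul (by nlinarith) hB3 (hvb.inv hB3)
  have h2 : A * g * u * v / (g' * c) * (c / dN) * (u / d ^ m)⁻¹ * (v / d ^ n)⁻¹ =
      g * (A * g'⁻¹) := by
    rw [← heq]
    field_simp
  rwa [h2] at h1

end Pool.Agent.T9h57.NF
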